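import Mathlib

/-!
# Herglotz measures on the sphere of `ℂⁿ`
-/

namespace Q71.HZ

open MeasureTheory Set Metric
open scoped ComplexConjugate

/-- The space `ℂⁿ`. -/
abbrev Cn (n : ℕ) : Type := EuclideanSpace ℂ (Fin n)

/-- The unit sphere of `ℂⁿ`. -/
abbrev Sph (n : ℕ) : Type := sphere (0 : Cn n) 1

/-- `⟨z, w⟩ = ∑ z_j \bar w_j`. -/
noncomputable def herm {n : ℕ} (z w : Cn n) : ℂ := ∑ j, z j * conj (w j)

/-- The normalized surface measure of the sphere. -/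
noncomputable def sigma (n : ℕ) : Measure (Sph n) :=
  ((volume : Measure (Cn n)).toSphere univ)⁻¹ • (volume : Measure (Cn n)).toSphere

/-- The span `E` of the functions `\bar u_k u^α` and `u_k \bar u^α`, `α ≠ 0`, on the sphere. -/
noncomputable def spaceE (n : ℕ) : Submodule ℂ (Sph n → ℂ) :=
  Submodule.span ℂ {p | ∃ (k : Fin n) (α : Fin n → ℕ), α ≠ 0 ∧
    ((p = fun u => conj (u.1 k) * ∏ j, u.1 j ^ α j) ∨
      (p = fun u => u.1 k * ∏ j, conj (u.1 j) ^ α j))}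

/-- `μ ∈ P_E(𝕊)`: `μ` is a probability measure in the weak-* closure of the measures `p dσ`,
`p ∈ E`. -/
def IsPE (n : ℕ) (μ : Measure (Sph n)) : Prop :=
  IsProbabilityMeasure μ ∧ ∀ (G : Finset C(Sph n, ℂ)) (ε : ℝ), 0 < ε →
    ∃ p ∈ spaceE n, ∀ g ∈ G, ‖(∫ u, g u ∂μ) - ∫ u, g u * p u ∂(sigma n)‖ < ε

/-- The class `𝓜`. -/
def IsM (n : ℕ) (f : Cn n → Cn n) : Prop :=
  DifferentiableOn ℂ f (ball 0 1) ∧ f 0 = 0 ∧ fderiv ℂ f 0 = ContinuousLinearMap.id ℂ (Cn n) ∧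
    ∀ z ∈ ball (0 : Cn n) 1, z ≠ 0 → 0 < (herm (f z) z).re

/-- `μ ∈ P_H(𝕊)`: `μ` is the representing measure `μ_f` in `P_E(𝕊)` of some `f` of the class
`𝓜`. -/
def IsPH (n : ℕ) (μ : Measure (Sph n)) : Prop :=
  IsPE n μ ∧ ∃ f, IsM n f ∧ ∀ z ∈ ball (0 : Cn n) 1,
    f z = ∫ u : Sph n, ((2 * n / (1 - herm z u.1) ^ (n + 1) : ℂ) • (u.1 - z)
      - (2 * n : ℂ) • u.1 - z) ∂μ

/-- The complex subspace `V` is `P_H`-null. -/
def ComplexNull (n : ℕ) (V : Submodule ℂ (Cn n)) : Prop :=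
  ∀ μ : Measure (Sph n), IsPH n μ → μ {u | u.1 ∈ V} = 0

/-- The real subspace `V` is `P_H`-null. -/
def RealNull (n : ℕ) (V : Submodule ℝ (Cn n)) : Prop :=
  ∀ μ : Measure (Sph n), IsPH n μ → μ {u | u.1 ∈ V} = 0

end Q71.HZ
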