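import Pool.Agent.Q71.HZ.LemE

/-!
# Unitary invariance of `P_E`
-/

namespace Q71.HZ

open MeasureTheory Set Metric Filter Topology
open scoped ComplexConjugate Pointwise InnerProductSpace

variable {n : ℕ}

/-- A unitary map restricted to the sphere. -/
noncomputable def sph (L : Cn n ≃ₗᵢ[ℂ] Cn n) (u : Sph n) : Sph n :=
  ⟨L u.1, by
    have h : ‖u.1‖ = 1 := by simp
    simp [L.norm_map]⟩

theorem sph_cont (L : Cn n ≃ₗᵢ[ℂ] Cn n) : Continuous (sph L) :=
  Continuous.subtype_mk (L.continuous.comp continuous_subtype_val) _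

theorem sph_symm (L : Cn n ≃ₗᵢ[ℂ] Cn n) (u : Sph n) : sph L (sph L.symm u) = u :=
  Subtype.ext (L.apply_symm_apply u.1)

theorem sph_symm' (L : Cn n ≃ₗᵢ[ℂ] Cn n) (u : Sph n) : sph L.symm (sph L u) = u :=
  Subtype.ext (L.symm_apply_apply u.1)

theorem integral_sph (L : Cn n ≃ₗᵢ[ℂ] Cn n) (h : Sph n → ℂ) :
    ∫ u : Sph n, h (sph L u) ∂(sigma n) = ∫ u : Sph n, h u ∂(sigma n) := by
  classical
  have := integral_comp L (fun x : Cn n => if hx : x ∈ sphere (0 : Cn n) 1 then h ⟨x, hx⟩ else 0)
  have e1 : ∀ u : Sph n, (fun x : Cn n => if hx : x ∈ sphere (0 : Cn n) 1 then h ⟨x, hx⟩ else 0)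
      (L u.1) = h (sph L u) := by
    intro u
    exact dif_pos (sph L u).2
  have e2 : ∀ u : Sph n, (fun x : Cn n => if hx : x ∈ sphere (0 : Cn n) 1 then h ⟨x, hx⟩ else 0)
      u.1 = h u := by
    intro u
    exact dif_pos u.2
  rw [integral_congr_ae (Eventually.of_forall e1), integral_congr_ae (Eventually.of_forall e2)]
    at this
  exact this

/-- functions `\bar u_k P(u)`, `P(0) = 0`, are in `E`. -/
theorem poly_mem (k : Fin n) (P : MvPolynomial (Fin n) ℂ) (hP : P.coeff 0 = 0) :
    (fun u : Sph n => conj (u.1 k) * MvPolynomial.eval (fun i => u.1 i) P) ∈ spaceE n := by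
  have h1 : (fun u : Sph n => conj (u.1 k) * MvPolynomial.eval (fun i => u.1 i) P)
      = ∑ d ∈ P.support, P.coeff d • fun u : Sph n => conj (u.1 k) * ∏ i, u.1 i ^ (d i) := by
    funext u
    rw [MvPolynomial.eval_eq', Finset.sum_apply, Finset.mul_sum]
    refine Finset.sum_congr rfl fun d _ => ?_
    simp only [Pi.smul_apply, smul_eq_mul]
    ring
  rw [h1]
  refine Submodule.sum_mem _ fun d hd => Submodule.smul_mem _ _ (Submodule.subset_span ?_)
  refine ⟨k, fun i => d i, fun h => ?_, Or.inl rfl⟩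
  have h2 : d = 0 := by
    ext i
    exact congrFun h i
  rw [h2, MvPolynomial.mem_support_iff] at hd
  exact hd hP

/-- functions `u_k \bar{P(u)}`, `P(0) = 0`, are in `E`. -/
theorem poly_mem' (k : Fin n) (P : MvPolynomial (Fin n) ℂ) (hP : P.coeff 0 = 0) :
    (fun u : Sph n => u.1 k * conj (MvPolynomial.eval (fun i => u.1 i) P)) ∈ spaceE n := by
  have h1 : (fun u : Sph n => u.1 k * conj (MvPolynomial.eval (fun i => u.1 i) P))
      = ∑ d ∈ P.support, conj (P.coeff d) • fun u : Sph n => u.1 k * ∏ i, conj (u.1 i) ^ (d i) := by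
    funext u
    rw [MvPolynomial.eval_eq', Finset.sum_apply, map_sum, Finset.mul_sum]
    refine Finset.sum_congr rfl fun d _ => ?_
    simp only [Pi.smul_apply, smul_eq_mul, map_mul, map_prod, map_pow]
    ring
  rw [h1]
  refine Submodule.sum_mem _ fun d hd => Submodule.smul_mem _ _ (Submodule.subset_span ?_)
  refine ⟨k, fun i => d i, fun h => ?_, Or.inr rfl⟩
  have h2 : d = 0 := by
    ext i
    exact congrFun h i
  rw [h2, MvPolynomial.mem_support_iff] at hd
  exact hd hP

/-- the matrix of `L` -/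
noncomputable def mat (L : Cn n ≃ₗᵢ[ℂ] Cn n) (j l : Fin n) : ℂ := L (EuclideanSpace.single l 1) j

theorem mat_apply (L : Cn n ≃ₗᵢ[ℂ] Cn n) (u : Cn n) (j : Fin n) :
    L u j = ∑ l, mat L j l * u l := by
  have h1 : u = ∑ l, u l • EuclideanSpace.single l (1 : ℂ) := by
    ext i
    simp [Finset.sum_apply, Pi.single_apply]
  conv_lhs => rw [h1]
  rw [map_sum]
  simp only [map_smul, mat]
  rw [WithLp.ofLp_sum, Finset.sum_apply]
  refine Finset.sum_congr rfl fun l _ => ?_
  rw [PiLp.smul_apply, smul_eq_mul, mul_comm]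

theorem spaceE_comp (L : Cn n ≃ₗᵢ[ℂ] Cn n) (p : Sph n → ℂ) (hp : p ∈ spaceE n) :
    (fun u => p (sph L u)) ∈ spaceE n := by
  induction hp using Submodule.span_induction with
  | mem p hp =>
    obtain ⟨k, α, hα, hpe⟩ := hp
    set P : MvPolynomial (Fin n) ℂ :=
      ∏ j, (∑ l, MvPolynomial.C (mat L j l) * MvPolynomial.X l) ^ α j with hPdef
    have hP : P.coeff 0 = 0 := by
      rw [← MvPolynomial.constantCoeff_eq, hPdef, map_prod]
      obtain ⟨j, hj⟩ : ∃ j, α j ≠ 0 := by
        by_contra hcon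
        push Not at hcon
        exact hα (funext hcon)
      refine Finset.prod_eq_zero (Finset.mem_univ j) ?_
      rw [map_pow, map_sum]
      simp [hj]
    have hev : ∀ u : Sph n, MvPolynomial.eval (fun i => u.1 i) P = ∏ j, (L u.1 j) ^ α j := by
      intro u
      rw [hPdef, map_prod]
      refine Finset.prod_congr rfl fun j _ => ?_
      rw [map_pow, map_sum, mat_apply]
      simp
    rcases hpe with rfl | rfl
    · have h1 : (fun u : Sph n => conj ((sph L u).1 k) * ∏ j, (sph L u).1 j ^ α j)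
          = ∑ l, conj (mat L k l) •
            fun u : Sph n => conj (u.1 l) * MvPolynomial.eval (fun i => u.1 i) P := by
        funext u
        change conj (L u.1 k) * ∏ j, (L u.1 j) ^ α j = _
        rw [Finset.sum_apply, ← hev, mat_apply, map_sum, Finset.sum_mul]
        refine Finset.sum_congr rfl fun l _ => ?_
        simp only [Pi.smul_apply, smul_eq_mul, map_mul]
        ring
      rw [h1]
      exact Submodule.sum_mem _ fun l _ => Submodule.smul_mem _ _ (poly_mem l P hP)
    · have h1 : (fun u : Sph n => (sph L u).1 k * ∏ j, conj ((sph L u).1 j) ^ α j)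
          = ∑ l, mat L k l •
            fun u : Sph n => u.1 l * conj (MvPolynomial.eval (fun i => u.1 i) P) := by
        funext u
        change L u.1 k * ∏ j, conj (L u.1 j) ^ α j = _
        simp only [← map_pow]
        rw [Finset.sum_apply, ← map_prod, ← hev, mat_apply, Finset.sum_mul]
        refine Finset.sum_congr rfl fun l _ => ?_
        simp only [Pi.smul_apply, smul_eq_mul]
        ring
      rw [h1]
      exact Submodule.sum_mem _ fun l _ => Submodule.smul_mem _ _ (poly_mem' l P hP)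
  | zero => exact Submodule.zero_mem _
  | add p q _ _ hp hq => exact Submodule.add_mem _ hp hq
  | smul c p _ hp => exact Submodule.smul_mem _ c hp

theorem IsPE.map {μ : Measure (Sph n)} (hμ : IsPE n μ) (L : Cn n ≃ₗᵢ[ℂ] Cn n) :
    IsPE n (μ.map (sph L)) := by
  classical
  haveI := hμ.1
  refine ⟨Measure.isProbabilityMeasure_map (sph_cont L).aemeasurable, fun G ε hε => ?_⟩
  obtain ⟨p, hp, hG⟩ := hμ.2 (G.image fun g : C(Sph n, ℂ) =>
    (⟨fun u => g (sph L u), g.continuous.comp (sph_cont L)⟩ : C(Sph n, ℂ))) ε hε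
  refine ⟨_, spaceE_comp L.symm p hp, fun g hg => ?_⟩
  have h1 := hG _ (Finset.mem_image_of_mem _ hg)
  simp only [ContinuousMap.coe_mk] at h1
  rw [integral_map (sph_cont L).aemeasurable g.continuous.aestronglyMeasurable_of_compactSpace]
  have h2 : ∫ u : Sph n, g u * p (sph L.symm u) ∂(sigma n)
      = ∫ u : Sph n, g (sph L u) * p u ∂(sigma n) := by
    rw [← integral_sph L (fun u => g u * p (sph L.symm u))]
    simp only [sph_symm']
  rw [h2]
  exact h1

/-- there is a unitary map sending a unit vector to the coordinate vector -/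
theorem exists_unitary (o : Fin n) (v : Cn n) (hv : ‖v‖ = 1) :
    ∃ L : Cn n ≃ₗᵢ[ℂ] Cn n, ∀ u, L u o = inner ℂ v u := by
  have h1 : Orthonormal ℂ (({o} : Set (Fin n)).domRestrict fun _ => v) := by
    refine ⟨fun i => hv, fun i j hij => absurd (Subsingleton.elim i j) hij⟩
  obtain ⟨b, hb⟩ := h1.exists_orthonormalBasis_extension_of_card_eq (by simp)
  refine ⟨b.repr, fun u => ?_⟩
  rw [OrthonormalBasis.repr_apply_apply, hb o (mem_singleton o)]

theorem null_hyper [NeZero n] {μ : Measure (Sph n)} (hμ : IsPE n μ) (o k₀ : Fin n) (hk : k₀ ≠ o)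
    (v : Cn n) (hv : v ≠ 0) : μ {u | (inner ℂ v u.1).re = 0} = 0 := by
  have hv' : 0 < ‖v‖ := norm_pos_iff.2 hv
  obtain ⟨L, hL⟩ := exists_unitary o ((‖v‖⁻¹ : ℝ) • v) (by
    rw [norm_smul, Real.norm_eq_abs, abs_of_nonneg (by positivity), inv_mul_cancel₀ hv'.ne'])
  have h1 := null_coord (hμ.map L) o k₀ hk
  rw [Measure.map_apply (sph_cont L).measurable] at h1
  · refine measure_mono_null ?_ h1
    intro u hu
    change (L u.1 o).re = 0
    rw [hL, RCLike.real_smul_eq_coe_smul (K := ℂ), inner_smul_left]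
    simp only [RCLike.conj_ofReal]
    have hu' : (inner ℂ v u.1).re = 0 := hu
    change (((‖v‖⁻¹ : ℝ) : ℂ) * inner ℂ v u.1).re = 0
    rw [Complex.re_ofReal_mul, hu', mul_zero]
  · have : Continuous fun u : Sph n => (u.1 o).re := by
      have h2 : Continuous fun u : Sph n => u.1 o := by fun_prop
      exact Complex.continuous_re.comp h2
    exact (isClosed_eq this continuous_const).measurableSet

/-- a real functional is the real part of an inner product -/
theorem exists_rep (f : Cn n →ₗ[ℝ] ℝ) : ∃ v : Cn n, ∀ u, f u = (inner ℂ v u).re := by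
  let F : Cn n →ₗ[ℂ] ℂ := Module.Dual.extendRCLike (𝕜 := ℂ) f
  have hF : ∀ u, (F u).re = f u := by
    intro u
    exact Module.Dual.re_extendRCLike_apply (𝕜 := ℂ) f u
  refine ⟨WithLp.toLp 2 fun j => conj (F (EuclideanSpace.single j 1)), fun u => ?_⟩
  rw [← hF]
  congr 1
  have h1 : u = ∑ l, u l • EuclideanSpace.single l (1 : ℂ) := by
    ext i
    simp [Finset.sum_apply, Pi.single_apply]
  conv_lhs => rw [h1]
  rw [map_sum, PiLp.inner_apply]
  refine Finset.sum_congr rfl fun l _ => ?_
  simp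

/-- **Every proper real subspace is null for every measure of `P_E`.** -/
theorem null_subspace (hn : 2 ≤ n) {μ : Measure (Sph n)} (hμ : IsPE n μ)
    (V : Submodule ℝ (Cn n)) (hV : V ≠ ⊤) : μ {u | u.1 ∈ V} = 0 := by
  haveI : NeZero n := ⟨by omega⟩
  obtain ⟨f, hf0, hf⟩ := V.exists_le_ker_of_lt_top (lt_top_iff_ne_top.2 hV)
  obtain ⟨v, hv⟩ := exists_rep f
  have hv0 : v ≠ 0 := by
    rintro rfl
    apply hf0
    ext u
    rw [hv]
    simp
  refine measure_mono_null ?_ (null_hyper hμ ⟨0, by omega⟩ ⟨1, by omega⟩ (by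
    intro h
    have := congrArg Fin.val h
    simp at this) v hv0)
  intro u hu
  have h1 : f u.1 = 0 := hf hu
  change (inner ℂ v u.1).re = 0
  rw [← hv, h1]

end Q71.HZ
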