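import Pool.Agent.Q71.HZ.Sig

/-!
# Orthogonality to the space `E`
-/

namespace Q71.HZ

open MeasureTheory Set Metric
open scoped ComplexConjugate Pointwise

variable {n : ℕ}

theorem exists_rot {a b : ℕ} (h : a ≠ b) :
    ∃ ζ : ℂ, ‖ζ‖ = 1 ∧ ζ ^ a * conj ζ ^ b ≠ 1 := by
  have key : ∀ k : ℕ, k ≠ 0 → ∃ ζ : ℂ, ‖ζ‖ = 1 ∧ ζ ^ k = -1 := by
    intro k hk
    refine ⟨Complex.exp (((Real.pi / k : ℝ) : ℂ) * Complex.I), Complex.norm_exp_ofReal_mul_I _, ?_⟩
    rw [← Complex.exp_nat_mul]
    have : (k : ℂ) * ((((Real.pi / k : ℝ)) : ℂ) * Complex.I) = Real.pi * Complex.I := by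
      have hk' : (k : ℂ) ≠ 0 := by exact_mod_cast hk
      push_cast
      field_simp
    rw [this, Complex.exp_pi_mul_I]
  have hz : ∀ ζ : ℂ, ‖ζ‖ = 1 → ζ * conj ζ = 1 := by
    intro ζ hζ
    rw [Complex.mul_conj, Complex.normSq_eq_norm_sq, hζ]
    simp
  rcases lt_or_gt_of_ne h with h | h
  · obtain ⟨ζ, h1, h2⟩ := key (b - a) (by omega)
    refine ⟨ζ, h1, ?_⟩
    have h3 : ζ ^ a * conj ζ ^ b = conj ζ ^ (b - a) := by
      have h4 : conj ζ ^ b = conj ζ ^ a * conj ζ ^ (b - a) := by
        rw [← pow_add]; congr 1; omega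
      rw [h4, ← mul_assoc, ← mul_pow, hz ζ h1, one_pow, one_mul]
    rw [h3, ← map_pow, h2]
    norm_num
  · obtain ⟨ζ, h1, h2⟩ := key (a - b) (by omega)
    refine ⟨ζ, h1, ?_⟩
    have h3 : ζ ^ a * conj ζ ^ b = ζ ^ (a - b) := by
      have h4 : ζ ^ a = ζ ^ (a - b) * ζ ^ b := by
        rw [← pow_add]; congr 1; omega
      rw [h4, mul_assoc, ← mul_pow, hz ζ h1, one_pow, mul_one]
    rw [h3, h2]
    norm_num

/-- rotation of one coordinate -/
noncomputable def rotL (j : Fin n) (ζ : ℂ) (h : ‖ζ‖ = 1) : Cn n ≃ₗᵢ[ℂ] Cn n :=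
  diagL (fun i => if i = j then ζ else 1) (fun i => by split_ifs <;> simp [h])

theorem rotL_self (j : Fin n) (ζ : ℂ) (h : ‖ζ‖ = 1) (u : Cn n) : rotL j ζ h u j = ζ * u j := by
  rw [rotL, diagL_apply]; simp

theorem rotL_ne (j i : Fin n) (ζ : ℂ) (h : ‖ζ‖ = 1) (u : Cn n) (hi : i ≠ j) :
    rotL j ζ h u i = u i := by
  rw [rotL, diagL_apply]; simp [hi]

theorem norm_rotL (j i : Fin n) (ζ : ℂ) (h : ‖ζ‖ = 1) (u : Cn n) :
    ‖rotL j ζ h u i‖ = ‖u i‖ := by
  rw [rotL, diagL_apply]
  split_ifs <;> simp [h]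

/-- A general monomial in `u, \bar u` times a radial-like function. -/
theorem integral_mono_eq_zero (Q : Cn n → ℂ) (hQ : ∀ j ζ h u, Q (rotL j ζ h u) = Q u)
    (α β : Fin n → ℕ) (hne : α ≠ β) :
    ∫ u : Sph n, Q u.1 * ((∏ i, u.1 i ^ α i) * ∏ i, conj (u.1 i) ^ β i) ∂(sigma n) = 0 := by
  obtain ⟨j, hj⟩ : ∃ j, α j ≠ β j := by
    by_contra hcon
    push Not at hcon
    exact hne (funext hcon)
  obtain ⟨ζ, h1, h2⟩ := exists_rot hj
  refine integral_eq_zero_of_rot (rotL j ζ h1)
    (fun u => Q u * ((∏ i, u i ^ α i) * ∏ i, conj (u i) ^ β i)) _ h2 (fun u => ?_)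
  have e1 : ∏ i, (rotL j ζ h1 u i) ^ α i = ζ ^ α j * ∏ i, u i ^ α i := by
    rw [← Finset.mul_prod_erase _ _ (Finset.mem_univ j),
      ← Finset.mul_prod_erase _ (fun i => u i ^ α i) (Finset.mem_univ j), rotL_self, mul_pow,
      mul_assoc]
    congr 2
    refine Finset.prod_congr rfl fun i hi => ?_
    rw [rotL_ne _ _ _ _ _ (Finset.ne_of_mem_erase hi)]
  have e2 : ∏ i, conj (rotL j ζ h1 u i) ^ β i = conj ζ ^ β j * ∏ i, conj (u i) ^ β i := by
    rw [← Finset.mul_prod_erase _ _ (Finset.mem_univ j),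
      ← Finset.mul_prod_erase _ (fun i => conj (u i) ^ β i) (Finset.mem_univ j), rotL_self,
      map_mul, mul_pow, mul_assoc]
    congr 2
    refine Finset.prod_congr rfl fun i hi => ?_
    rw [rotL_ne _ _ _ _ _ (Finset.ne_of_mem_erase hi)]
  change Q (rotL j ζ h1 u) * ((∏ i, (rotL j ζ h1 u i) ^ α i) *
    ∏ i, conj (rotL j ζ h1 u i) ^ β i) = _
  rw [hQ, e1, e2, smul_eq_mul]
  ring

theorem integrable_of_cont [NeZero n] {F : Type*} [NormedAddCommGroup F] {g : Sph n → F}
    (hg : Continuous g) (μ : Measure (Sph n)) [IsFiniteMeasure μ] : Integrable g μ := by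
  obtain ⟨C, hC⟩ := (isCompact_univ (X := Sph n)).exists_bound_of_continuousOn hg.continuousOn
  exact Integrable.of_bound hg.aestronglyMeasurable_of_compactSpace C
    (Filter.Eventually.of_forall fun x => hC x (mem_univ x))

theorem perm_eq (q : ℝ → ℂ) (o k l : Fin n) (hk : k ≠ o) (hl : l ≠ o) :
    ∫ u : Sph n, q (‖u.1 o‖ ^ 2) * (‖u.1 k‖ ^ 2 : ℝ) ∂(sigma n)
      = ∫ u : Sph n, q (‖u.1 o‖ ^ 2) * (‖u.1 l‖ ^ 2 : ℝ) ∂(sigma n) := by
  have h := integral_comp (permL (Equiv.swap k l))
    (fun u : Cn n => q (‖u o‖ ^ 2) * ((‖u k‖ ^ 2 : ℝ) : ℂ))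
  rw [← h]
  refine integral_congr_ae (Filter.Eventually.of_forall fun u => ?_)
  simp only [permL_apply, Equiv.symm_swap, Equiv.swap_apply_left]
  rw [Equiv.swap_apply_of_ne_of_ne hk.symm hl.symm]

theorem other_eq_zero [NeZero n] (q : ℝ → ℂ) (hq : Continuous q) (o k : Fin n) (hk : k ≠ o)
    (h : ∫ u : Sph n, q (‖u.1 o‖ ^ 2) * ((1 - ‖u.1 o‖ ^ 2 : ℝ) : ℂ) ∂(sigma n) = 0) :
    ∫ u : Sph n, q (‖u.1 o‖ ^ 2) * ((‖u.1 k‖ ^ 2 : ℝ) : ℂ) ∂(sigma n) = 0 := by
  haveI := isProb (n := n) (Nat.pos_of_ne_zero (NeZero.ne n))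
  have h1 : ∀ u : Sph n, q (‖u.1 o‖ ^ 2) * ((1 - ‖u.1 o‖ ^ 2 : ℝ) : ℂ)
      = ∑ l ∈ Finset.univ.erase o, q (‖u.1 o‖ ^ 2) * ((‖u.1 l‖ ^ 2 : ℝ) : ℂ) := by
    intro u
    rw [← Finset.mul_sum, ← Complex.ofReal_sum]
    congr 2
    have := sum_norm_sq u
    rw [← Finset.add_sum_erase _ _ (Finset.mem_univ o)] at this
    linarith
  rw [integral_congr_ae (Filter.Eventually.of_forall h1), integral_finsetSum _ (fun l _ =>
    integrable_of_cont (by fun_prop) _),
    Finset.sum_congr rfl (fun l hl => perm_eq q o l k (Finset.ne_of_mem_erase hl) hk),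
    Finset.sum_const, nsmul_eq_mul] at h
  rcases mul_eq_zero.1 h with h2 | h2
  · exfalso
    have h3 : (Finset.univ.erase o).card ≠ 0 :=
      Finset.card_ne_zero_of_mem (Finset.mem_erase.2 ⟨hk, Finset.mem_univ k⟩)
    exact h3 (by exact_mod_cast h2)
  · exact h2

/-- **Lemma A.** -/
theorem lemA [NeZero n] (o : Fin n) (m : ℕ) (ψ : ℝ → ℂ) (hψ : Continuous ψ)
    (h1 : ∫ u : Sph n, ψ (‖u.1 o‖ ^ 2) * ((‖u.1 o‖ ^ 2) ^ (m + 1) : ℝ) ∂(sigma n) = 0)
    (h2 : ∫ u : Sph n, ψ (‖u.1 o‖ ^ 2) * ((‖u.1 o‖ ^ 2) ^ m * (1 - ‖u.1 o‖ ^ 2) : ℝ)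
      ∂(sigma n) = 0) (p : Sph n → ℂ) (hp : p ∈ spaceE n) :
    ∫ u : Sph n, u.1 o ^ m * ψ (‖u.1 o‖ ^ 2) * p u ∂(sigma n) = 0 := by
  haveI := isProb (n := n) (Nat.pos_of_ne_zero (NeZero.ne n))
  -- continuity of the elements of `E`
  have hcont : ∀ p ∈ spaceE n, Continuous p := by
    intro p hp
    induction hp using Submodule.span_induction with
    | mem p hp =>
      obtain ⟨k, α, -, rfl | rfl⟩ := hp <;> fun_prop
    | zero => exact continuous_const
    | add p q _ _ hp hq => exact hp.add hq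
    | smul c p _ hp => exact hp.const_smul c
  -- the surviving terms
  have hsurv : ∀ k : Fin n, ∫ u : Sph n, ψ (‖u.1 o‖ ^ 2) *
      (((‖u.1 o‖ ^ 2) ^ m * ‖u.1 k‖ ^ 2 : ℝ) : ℂ) ∂(sigma n) = 0 := by
    intro k
    by_cases hk : k = o
    · subst hk
      rw [← h1]
      refine integral_congr_ae (Filter.Eventually.of_forall fun u => ?_)
      simp only
      rw [pow_succ _ m]
    · have h3 := other_eq_zero (fun x => ψ x * ((x ^ m : ℝ) : ℂ)) (by fun_prop) o k hk (by
        rw [← h2]
        refine integral_congr_ae (Filter.Eventually.of_forall fun u => ?_)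
        simp only
        push_cast
        ring)
      rw [← h3]
      refine integral_congr_ae (Filter.Eventually.of_forall fun u => ?_)
      simp only
      push_cast
      ring
  have hQrot : ∀ j ζ h u, (fun u : Cn n => ψ (‖u o‖ ^ 2)) (rotL j ζ h u)
      = (fun u : Cn n => ψ (‖u o‖ ^ 2)) u := by
    intro j ζ h u
    simp only [norm_rotL]
  have hprod : ∀ (f : Fin n → ℂ) (a : Fin n → ℕ) (j : Fin n) (m : ℕ),
      ∏ i, f i ^ (a i + if i = j then m else 0) = f j ^ m * ∏ i, f i ^ a i := by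
    intro f a j m
    simp_rw [pow_add]
    rw [Finset.prod_mul_distrib, mul_comm]
    congr 1
    rw [Finset.prod_eq_single j]
    · simp
    · intro b _ hb
      simp [hb]
    · simp
  induction hp using Submodule.span_induction with
  | mem p hp =>
    obtain ⟨k, α, hα, rfl | rfl⟩ := hp
    · by_cases hne : (fun i => α i + if i = o then m else 0) = (fun i => 0 + if i = k then 1 else 0)
      · -- `m = 0`, `α = δ_k`
        have hm : m = 0 := by
          have h3 := congrFun hne o
          simp only [if_true] at h3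
          by_contra hm0
          have hko : k = o := by
            by_contra hko
            rw [if_neg (fun h => hko h.symm)] at h3
            omega
          subst hko
          simp only [if_true] at h3
          apply hα
          funext i
          by_cases hi : i = k
          · subst hi
            simp only [Pi.zero_apply]
            omega
          · have h4 := congrFun hne i
            simp only [if_neg hi] at h4
            simpa using h4
        subst hm
        have h5 : ∀ i, α i = 0 + if i = k then 1 else 0 := by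
          intro i
          have h4 := congrFun hne i
          simpa using h4
        rw [← hsurv k]
        refine integral_congr_ae (Filter.Eventually.of_forall fun u => ?_)
        simp only [h5]
        have h6 := hprod (fun i => u.1 i) (fun _ => 0) k 1
        simp only [pow_zero, Finset.prod_const_one, mul_one, pow_one] at h6
        rw [h6]
        have h7 : conj (u.1 k) * u.1 k = ((‖u.1 k‖ ^ 2 : ℝ) : ℂ) := by
          rw [mul_comm, Complex.mul_conj, Complex.normSq_eq_norm_sq]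
        rw [h7]
        push_cast
        ring
      · rw [← integral_mono_eq_zero (fun u : Cn n => ψ (‖u o‖ ^ 2)) hQrot _ _ hne]
        refine integral_congr_ae (Filter.Eventually.of_forall fun u => ?_)
        simp only
        rw [hprod (fun i => u.1 i) α o m, hprod (fun i => conj (u.1 i)) (fun _ => 0) k 1]
        simp only [pow_zero, Finset.prod_const_one, mul_one, pow_one]
        ring
    · by_cases hne : (fun i => (0 + if i = k then 1 else 0) + if i = o then m else 0) = α
      · rw [← hsurv k]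
        refine integral_congr_ae (Filter.Eventually.of_forall fun u => ?_)
        simp only
        rw [← hne]
        rw [hprod (fun i => conj (u.1 i)) (fun i => (0 + if i = k then 1 else 0)) o m,
          hprod (fun i => conj (u.1 i)) (fun _ => 0) k 1]
        simp only [pow_zero, Finset.prod_const_one, mul_one, pow_one]
        have h7 : ∀ w : ℂ, w * conj w = ((‖w‖ ^ 2 : ℝ) : ℂ) := by
          intro w
          rw [Complex.mul_conj, Complex.normSq_eq_norm_sq]
        have h8 : (((‖u.1 o‖ ^ 2) ^ m * ‖u.1 k‖ ^ 2 : ℝ) : ℂ)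
            = (u.1 o * conj (u.1 o)) ^ m * (u.1 k * conj (u.1 k)) := by
          rw [h7, h7]
          push_cast
          ring
        rw [h8, mul_pow]
        ring
      · rw [← integral_mono_eq_zero (fun u : Cn n => ψ (‖u o‖ ^ 2)) hQrot _ _ hne]
        refine integral_congr_ae (Filter.Eventually.of_forall fun u => ?_)
        simp only
        rw [hprod (fun i => u.1 i) (fun i => (0 + if i = k then 1 else 0)) o m,
          hprod (fun i => u.1 i) (fun _ => 0) k 1]
        simp only [pow_zero, Finset.prod_const_one, mul_one, pow_one]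
        ring
  | zero => simp
  | add p q hp hq ihp ihq =>
    have hp' := hcont p hp
    have hq' := hcont q hq
    simp only [Pi.add_apply, mul_add]
    rw [integral_add (integrable_of_cont (by fun_prop) _) (integrable_of_cont (by fun_prop) _),
      ihp, ihq, add_zero]
  | smul c p hp ihp =>
    simp only [Pi.smul_apply, smul_eq_mul]
    have : ∀ u : Sph n, u.1 o ^ m * ψ (‖u.1 o‖ ^ 2) * (c * p u)
        = c * (u.1 o ^ m * ψ (‖u.1 o‖ ^ 2) * p u) := fun u => by ring
    rw [integral_congr_ae (Filter.Eventually.of_forall this), integral_const_mul, ihp, mul_zero]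

theorem spaceE_cont (p : Sph n → ℂ) (hp : p ∈ spaceE n) : Continuous p := by
  induction hp using Submodule.span_induction with
  | mem p hp =>
    obtain ⟨k, α, -, rfl | rfl⟩ := hp <;> fun_prop
  | zero => exact continuous_const
  | add p q _ _ hp hq => exact hp.add hq
  | smul c p _ hp => exact hp.const_smul c

end Q71.HZ
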