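import Pool.Agent.Q71.HZ.LemA

/-!
# The moments of a measure of `P_E`
-/

namespace Q71.HZ

open MeasureTheory Set Metric
open scoped ComplexConjugate Pointwise

variable {n : ℕ}

theorem Lam_eq_zero [NeZero n] {μ : Measure (Sph n)} (hμ : IsPE n μ) (o : Fin n) (m : ℕ)
    (ψ : ℝ → ℂ) (hψ : Continuous ψ)
    (h1 : ∫ u : Sph n, ψ (‖u.1 o‖ ^ 2) * ((‖u.1 o‖ ^ 2) ^ (m + 1) : ℝ) ∂(sigma n) = 0)
    (h2 : ∫ u : Sph n, ψ (‖u.1 o‖ ^ 2) * ((‖u.1 o‖ ^ 2) ^ m * (1 - ‖u.1 o‖ ^ 2) : ℝ)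
      ∂(sigma n) = 0) : ∫ u : Sph n, u.1 o ^ m * ψ (‖u.1 o‖ ^ 2) ∂μ = 0 := by
  by_contra hne
  obtain ⟨p, hp, hG⟩ := hμ.2 {⟨fun u : Sph n => u.1 o ^ m * ψ (‖u.1 o‖ ^ 2), by fun_prop⟩}
    _ (norm_pos_iff.2 hne)
  have h3 := hG _ (Finset.mem_singleton_self _)
  simp only [ContinuousMap.coe_mk] at h3
  rw [lemA o m ψ hψ h1 h2 p hp, sub_zero] at h3
  exact lt_irrefl _ h3

/-- a point of the sphere with prescribed modulus of one coordinate -/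
theorem exists_pt (o k : Fin n) (hk : k ≠ o) (τ : ℝ) (h0 : 0 ≤ τ) (h1 : τ ≤ 1) :
    ∃ u : Sph n, ‖u.1 o‖ ^ 2 = τ := by
  let x : Cn n := WithLp.toLp 2 fun i => if i = o then (Real.sqrt τ : ℂ) else
    if i = k then (Real.sqrt (1 - τ) : ℂ) else 0
  have hx : ‖x‖ = 1 := by
    rw [EuclideanSpace.norm_eq]
    have : ∑ i, ‖x i‖ ^ 2 = 1 := by
      rw [← Finset.add_sum_erase _ _ (Finset.mem_univ o),
        ← Finset.add_sum_erase _ _ (Finset.mem_erase.2 ⟨hk, Finset.mem_univ k⟩)]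
      rw [Finset.sum_eq_zero]
      · simp only [x, if_true, if_neg hk]
        rw [Complex.norm_real, Complex.norm_real, Real.norm_eq_abs, Real.norm_eq_abs, sq_abs,
          sq_abs, Real.sq_sqrt h0, Real.sq_sqrt (by linarith)]
        ring
      · intro i hi
        have h3 := Finset.ne_of_mem_erase hi
        have h4 := Finset.ne_of_mem_erase (Finset.mem_of_mem_erase hi)
        simp [x, h3, h4]
    rw [this, Real.sqrt_one]
  refine ⟨⟨x, by simp [hx]⟩, ?_⟩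
  simp only [x, if_true]
  rw [Complex.norm_real, Real.norm_eq_abs, sq_abs, Real.sq_sqrt h0]

theorem int_pos [NeZero n] (f : ℝ → ℝ) (hf : Continuous f) (h0 : ∀ x, 0 ≤ x → x ≤ 1 → 0 ≤ f x)
    (o k : Fin n) (hk : k ≠ o) (τ : ℝ) (h1 : 0 ≤ τ) (h2 : τ ≤ 1) (h3 : f τ ≠ 0) :
    0 < ∫ u : Sph n, f (‖u.1 o‖ ^ 2) ∂(sigma n) := by
  haveI := isProb (n := n) (Nat.pos_of_ne_zero (NeZero.ne n))
  haveI := isOpenPos (n := n)
  obtain ⟨u, hu⟩ := exists_pt o k hk τ h1 h2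
  refine Continuous.integral_pos_of_hasCompactSupport_nonneg_nonzero (x := u) (by fun_prop)
    (HasCompactSupport.of_compactSpace _) (fun v => ?_) (by rw [hu]; exact h3)
  exact h0 _ (by positivity) (by
    have := norm_coord_le v o
    nlinarith [norm_nonneg (v.1 o)])

theorem exists_eta [NeZero n] (o k : Fin n) (hk : k ≠ o) (s : ℝ) (hs0 : 0 < s) (hs1 : s < 1) :
    ∃ η₁ η₂ : ℝ → ℝ, Continuous η₁ ∧ Continuous η₂ ∧ (∀ x, x ≤ s → η₁ x = 0) ∧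
      (∀ x, x ≤ s → η₂ x = 0) ∧
      ∫ u : Sph n, η₁ (‖u.1 o‖ ^ 2) * ‖u.1 o‖ ^ 2 ∂(sigma n) = 1 ∧
      ∫ u : Sph n, η₁ (‖u.1 o‖ ^ 2) * (1 - ‖u.1 o‖ ^ 2) ∂(sigma n) = 0 ∧
      ∫ u : Sph n, η₂ (‖u.1 o‖ ^ 2) * ‖u.1 o‖ ^ 2 ∂(sigma n) = 0 ∧
      ∫ u : Sph n, η₂ (‖u.1 o‖ ^ 2) * (1 - ‖u.1 o‖ ^ 2) ∂(sigma n) = 1 := by
  haveI := isProb (n := n) (Nat.pos_of_ne_zero (NeZero.ne n))
  set c : ℝ := (1 + s) / 2 with hc
  have hsc : s < c := by rw [hc]; linarith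
  have hc1 : c < 1 := by rw [hc]; linarith
  set β₁ : ℝ → ℝ := fun x => max 0 ((x - s) * (c - x)) with hβ₁
  set β₂ : ℝ → ℝ := fun x => max 0 ((x - c) * (1 - x)) with hβ₂
  have hβ₁c : Continuous β₁ := by rw [hβ₁]; fun_prop
  have hβ₂c : Continuous β₂ := by rw [hβ₂]; fun_prop
  have hβ₁0 : ∀ x, 0 ≤ β₁ x := fun x => le_max_left _ _
  have hβ₂0 : ∀ x, 0 ≤ β₂ x := fun x => le_max_left _ _
  have hβ₁s : ∀ x, x ≤ s → β₁ x = 0 := fun x hx =>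
    max_eq_left (mul_nonpos_of_nonpos_of_nonneg (by linarith) (by linarith))
  have hβ₂s : ∀ x, x ≤ s → β₂ x = 0 := fun x hx =>
    max_eq_left (mul_nonpos_of_nonpos_of_nonneg (by linarith) (by linarith))
  set a₁ := ∫ u : Sph n, β₁ (‖u.1 o‖ ^ 2) * ‖u.1 o‖ ^ 2 ∂(sigma n) with ha₁
  set b₁ := ∫ u : Sph n, β₁ (‖u.1 o‖ ^ 2) * (1 - ‖u.1 o‖ ^ 2) ∂(sigma n) with hb₁
  set a₂ := ∫ u : Sph n, β₂ (‖u.1 o‖ ^ 2) * ‖u.1 o‖ ^ 2 ∂(sigma n) with ha₂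
  set b₂ := ∫ u : Sph n, β₂ (‖u.1 o‖ ^ 2) * (1 - ‖u.1 o‖ ^ 2) ∂(sigma n) with hb₂
  have hI : ∀ f : ℝ → ℝ, Continuous f →
      Integrable (fun u : Sph n => f (‖u.1 o‖ ^ 2)) (sigma n) := fun f hf =>
    integrable_of_cont (by fun_prop) _
  -- `B₁ = a₁ + b₁`, `B₂ = a₂ + b₂`
  have e1 : a₁ < c * (a₁ + b₁) := by
    have h1 := int_pos (n := n) (fun x => β₁ x * (c - x)) (by fun_prop) (fun x h0 h1 => by
      rcases le_or_gt x c with h | h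
      · exact mul_nonneg (hβ₁0 x) (by linarith)
      · have : β₁ x = 0 := max_eq_left (mul_nonpos_of_nonneg_of_nonpos (by linarith)
          (by linarith))
        rw [this, zero_mul]) o k hk ((s + c) / 2) (by linarith) (by linarith) (by
        have h3 : 0 < ((s + c) / 2 - s) * (c - (s + c) / 2) := mul_pos (by linarith) (by linarith)
        have h4 : 0 < β₁ ((s + c) / 2) := lt_of_lt_of_le h3 (le_max_right _ _)
        exact (mul_pos h4 (by linarith)).ne')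
    have h2 : ∫ u : Sph n, β₁ (‖u.1 o‖ ^ 2) * (c - ‖u.1 o‖ ^ 2) ∂(sigma n)
        = c * (a₁ + b₁) - a₁ := by
      have h3 : ∀ u : Sph n, β₁ (‖u.1 o‖ ^ 2) * (c - ‖u.1 o‖ ^ 2)
          = c * (β₁ (‖u.1 o‖ ^ 2) * ‖u.1 o‖ ^ 2 + β₁ (‖u.1 o‖ ^ 2) * (1 - ‖u.1 o‖ ^ 2))
            - β₁ (‖u.1 o‖ ^ 2) * ‖u.1 o‖ ^ 2 := fun u => by ring
      rw [integral_congr_ae (Filter.Eventually.of_forall h3), integral_sub
        (integrable_of_cont (by fun_prop) _) (integrable_of_cont (by fun_prop) _),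
        integral_const_mul, integral_add (integrable_of_cont (by fun_prop) _)
        (integrable_of_cont (by fun_prop) _)]
    have h1' : 0 < ∫ u : Sph n, β₁ (‖u.1 o‖ ^ 2) * (c - ‖u.1 o‖ ^ 2) ∂(sigma n) := h1
    rw [h2] at h1'
    linarith
  have e2 : c * (a₂ + b₂) ≤ a₂ := by
    have h1 : 0 ≤ ∫ u : Sph n, β₂ (‖u.1 o‖ ^ 2) * (‖u.1 o‖ ^ 2 - c) ∂(sigma n) := by
      refine integral_nonneg fun u => ?_
      change 0 ≤ β₂ (‖u.1 o‖ ^ 2) * (‖u.1 o‖ ^ 2 - c)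
      rcases le_or_gt (‖u.1 o‖ ^ 2) c with h | h
      · have h5 : ‖u.1 o‖ ^ 2 ≤ 1 := by
          have := norm_coord_le u o
          nlinarith [norm_nonneg (u.1 o)]
        have : β₂ (‖u.1 o‖ ^ 2) = 0 := max_eq_left (mul_nonpos_of_nonpos_of_nonneg (by linarith)
          (by linarith))
        rw [this, zero_mul]
      · exact mul_nonneg (hβ₂0 _) (by linarith)
    have h2 : ∫ u : Sph n, β₂ (‖u.1 o‖ ^ 2) * (‖u.1 o‖ ^ 2 - c) ∂(sigma n)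
        = a₂ - c * (a₂ + b₂) := by
      have h3 : ∀ u : Sph n, β₂ (‖u.1 o‖ ^ 2) * (‖u.1 o‖ ^ 2 - c)
          = β₂ (‖u.1 o‖ ^ 2) * ‖u.1 o‖ ^ 2 - c * (β₂ (‖u.1 o‖ ^ 2) * ‖u.1 o‖ ^ 2
            + β₂ (‖u.1 o‖ ^ 2) * (1 - ‖u.1 o‖ ^ 2)) := fun u => by ring
      rw [integral_congr_ae (Filter.Eventually.of_forall h3), integral_sub
        (integrable_of_cont (by fun_prop) _) (integrable_of_cont (by fun_prop) _),
        integral_const_mul, integral_add (integrable_of_cont (by fun_prop) _)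
        (integrable_of_cont (by fun_prop) _)]
    rw [h2] at h1
    linarith
  have e3 : 0 < a₂ + b₂ := by
    have h1 := int_pos (n := n) β₂ hβ₂c (fun x _ _ => hβ₂0 x) o k hk ((c + 1) / 2) (by linarith)
      (by linarith) (by
        have h3 : 0 < ((c + 1) / 2 - c) * (1 - (c + 1) / 2) := mul_pos (by linarith) (by linarith)
        have h4 : 0 < β₂ ((c + 1) / 2) := lt_of_lt_of_le h3 (le_max_right _ _)
        exact h4.ne')
    have h2 : ∫ u : Sph n, β₂ (‖u.1 o‖ ^ 2) ∂(sigma n) = a₂ + b₂ := by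
      have h3 : ∀ u : Sph n, β₂ (‖u.1 o‖ ^ 2)
          = β₂ (‖u.1 o‖ ^ 2) * ‖u.1 o‖ ^ 2 + β₂ (‖u.1 o‖ ^ 2) * (1 - ‖u.1 o‖ ^ 2) :=
        fun u => by ring
      rw [integral_congr_ae (Filter.Eventually.of_forall h3), integral_add
        (integrable_of_cont (by fun_prop) _) (integrable_of_cont (by fun_prop) _)]
    rw [h2] at h1
    exact h1
  have e4 : 0 < a₁ + b₁ := by
    have h1 := int_pos (n := n) β₁ hβ₁c (fun x _ _ => hβ₁0 x) o k hk ((s + c) / 2) (by linarith)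
      (by linarith) (by
        have h3 : 0 < ((s + c) / 2 - s) * (c - (s + c) / 2) := mul_pos (by linarith) (by linarith)
        have h4 : 0 < β₁ ((s + c) / 2) := lt_of_lt_of_le h3 (le_max_right _ _)
        exact h4.ne')
    have h2 : ∫ u : Sph n, β₁ (‖u.1 o‖ ^ 2) ∂(sigma n) = a₁ + b₁ := by
      have h3 : ∀ u : Sph n, β₁ (‖u.1 o‖ ^ 2)
          = β₁ (‖u.1 o‖ ^ 2) * ‖u.1 o‖ ^ 2 + β₁ (‖u.1 o‖ ^ 2) * (1 - ‖u.1 o‖ ^ 2) :=
        fun u => by ring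
      rw [integral_congr_ae (Filter.Eventually.of_forall h3), integral_add
        (integrable_of_cont (by fun_prop) _) (integrable_of_cont (by fun_prop) _)]
    rw [h2] at h1
    exact h1
  have hD : a₁ * b₂ - a₂ * b₁ ≠ 0 := by
    have h5 : a₁ * b₂ - a₂ * b₁ = a₁ * (a₂ + b₂) - a₂ * (a₁ + b₁) := by ring
    rw [h5]
    have h6 : a₁ * (a₂ + b₂) < c * (a₁ + b₁) * (a₂ + b₂) := mul_lt_mul_of_pos_right e1 e3
    have h7 : c * (a₂ + b₂) * (a₁ + b₁) ≤ a₂ * (a₁ + b₁) := mul_le_mul_of_nonneg_right e2 e4.le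
    nlinarith
  set D := a₁ * b₂ - a₂ * b₁ with hDdef
  have hlin : ∀ (x y : ℝ) (w : ℝ → ℝ), Continuous w →
      ∫ u : Sph n, (x * β₁ (‖u.1 o‖ ^ 2) + y * β₂ (‖u.1 o‖ ^ 2)) * w (‖u.1 o‖ ^ 2) ∂(sigma n)
      = x * (∫ u : Sph n, β₁ (‖u.1 o‖ ^ 2) * w (‖u.1 o‖ ^ 2) ∂(sigma n))
        + y * (∫ u : Sph n, β₂ (‖u.1 o‖ ^ 2) * w (‖u.1 o‖ ^ 2) ∂(sigma n)) := by
    intro x y w hw
    have h3 : ∀ u : Sph n, (x * β₁ (‖u.1 o‖ ^ 2) + y * β₂ (‖u.1 o‖ ^ 2)) * w (‖u.1 o‖ ^ 2)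
        = x * (β₁ (‖u.1 o‖ ^ 2) * w (‖u.1 o‖ ^ 2)) + y * (β₂ (‖u.1 o‖ ^ 2) * w (‖u.1 o‖ ^ 2)) :=
      fun u => by ring
    rw [integral_congr_ae (Filter.Eventually.of_forall h3), integral_add
        (integrable_of_cont (by fun_prop) _) (integrable_of_cont (by fun_prop) _),
        integral_const_mul, integral_const_mul]
  refine ⟨fun x => (b₂ / D) * β₁ x + (-b₁ / D) * β₂ x, fun x => (-a₂ / D) * β₁ x + (a₁ / D) * β₂ x,
    by fun_prop, by fun_prop, fun x hx => by simp only [hβ₁s x hx, hβ₂s x hx]; ring,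
    fun x hx => by simp only [hβ₁s x hx, hβ₂s x hx]; ring, ?_, ?_, ?_, ?_⟩
  · rw [hlin _ _ (fun x => x) continuous_id]
    change b₂ / D * a₁ + -b₁ / D * a₂ = 1
    field_simp
    rw [hDdef]; ring
  · rw [hlin _ _ (fun x => 1 - x) (by fun_prop)]
    change b₂ / D * b₁ + -b₁ / D * b₂ = 0
    ring
  · rw [hlin _ _ (fun x => x) continuous_id]
    change -a₂ / D * a₁ + a₁ / D * a₂ = 0
    ring
  · rw [hlin _ _ (fun x => 1 - x) (by fun_prop)]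
    change -a₂ / D * b₁ + a₁ / D * b₂ = 1
    field_simp
    rw [hDdef]; ring

end Q71.HZ
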