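import Pool.Agent.Q71.HZ.LemB

/-!
# The moments of a measure of `P_E`, continued
-/

namespace Q71.HZ

open MeasureTheory Set Metric Filter Topology
open scoped ComplexConjugate Pointwise

variable {n : ℕ}

theorem bdd_of_cont (f : ℝ → ℝ) (hf : Continuous f) : ∃ M, 0 ≤ M ∧ ∀ x, 0 ≤ x → x ≤ 1 →
    |f x| ≤ M := by
  obtain ⟨M, hM⟩ := (isCompact_Icc (a := (0 : ℝ)) (b := 1)).exists_bound_of_continuousOn
    hf.continuousOn
  refine ⟨max M 0, le_max_right _ _, fun x h0 h1 => le_trans ?_ (le_max_left _ _)⟩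
  exact hM x ⟨h0, h1⟩

theorem t_le (u : Sph n) (o : Fin n) : ‖u.1 o‖ ^ 2 ≤ 1 := by
  have := norm_coord_le u o
  nlinarith [norm_nonneg (u.1 o)]

theorem formula [NeZero n] {μ : Measure (Sph n)} (hμ : IsPE n μ) (o k₀ : Fin n) (hk : k₀ ≠ o)
    (s : ℝ) (hs0 : 0 < s) (hs1 : s < 1) :
    ∃ C : ℝ, 0 ≤ C ∧ ∀ k : ℕ, ∃ A B : ℂ, ‖A‖ ≤ C * (s⁻¹) ^ k ∧ ‖B‖ ≤ C * (s⁻¹) ^ k ∧
      ∀ ψ : ℝ → ℂ, Continuous ψ →
        ∫ u : Sph n, u.1 o ^ (2 * k) * ψ (‖u.1 o‖ ^ 2) ∂μ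
          = A * (∫ u : Sph n, ψ (‖u.1 o‖ ^ 2) * ((‖u.1 o‖ ^ 2) ^ (2 * k + 1) : ℝ) ∂(sigma n))
          + B * (∫ u : Sph n, ψ (‖u.1 o‖ ^ 2) *
              ((‖u.1 o‖ ^ 2) ^ (2 * k) * (1 - ‖u.1 o‖ ^ 2) : ℝ) ∂(sigma n)) := by
  haveI := isProb (n := n) (Nat.pos_of_ne_zero (NeZero.ne n))
  haveI := hμ.1
  obtain ⟨η₁, η₂, hc1, hc2, hz1, hz2, i11, i12, i21, i22⟩ := exists_eta o k₀ hk s hs0 hs1
  obtain ⟨M₁, hM₁0, hM₁⟩ := bdd_of_cont η₁ hc1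
  obtain ⟨M₂, hM₂0, hM₂⟩ := bdd_of_cont η₂ hc2
  refine ⟨max M₁ M₂, le_trans hM₁0 (le_max_left _ _), fun k => ?_⟩
  -- the functions `t^{-2k} η_j`
  have hζc : ∀ η : ℝ → ℝ, Continuous η →
      Continuous fun x : ℝ => ((η x * ((max x s)⁻¹) ^ (2 * k) : ℝ) : ℂ) := by
    intro η hη
    have : Continuous fun x : ℝ => (max x s)⁻¹ :=
      (continuous_id.max continuous_const).inv₀ fun x =>
        (lt_of_lt_of_le hs0 (le_max_right _ _)).ne'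
    fun_prop
  have hζ : ∀ η : ℝ → ℝ, (∀ x, x ≤ s → η x = 0) → ∀ x, 
      (η x * ((max x s)⁻¹) ^ (2 * k)) * x ^ (2 * k) = η x := by
    intro η hη x
    rcases le_or_gt x s with h | h
    · rw [hη x h]; ring
    · rw [max_eq_left h.le, mul_assoc, ← mul_pow, inv_mul_cancel₀ (by linarith), one_pow, mul_one]
  have hbd : ∀ (η : ℝ → ℝ) (M : ℝ), 0 ≤ M → Continuous η → (∀ x, x ≤ s → η x = 0) →
      (∀ x, 0 ≤ x → x ≤ 1 → |η x| ≤ M) → M ≤ max M₁ M₂ →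
      ‖∫ u : Sph n, u.1 o ^ (2 * k) *
        ((η (‖u.1 o‖ ^ 2) * ((max (‖u.1 o‖ ^ 2) s)⁻¹) ^ (2 * k) : ℝ) : ℂ) ∂μ‖
        ≤ max M₁ M₂ * (s⁻¹) ^ k := by
    intro η M hM0 hη hz hM hMM
    have h1 : ‖∫ u : Sph n, u.1 o ^ (2 * k) *
        ((η (‖u.1 o‖ ^ 2) * ((max (‖u.1 o‖ ^ 2) s)⁻¹) ^ (2 * k) : ℝ) : ℂ) ∂μ‖
        ≤ (M * (s⁻¹) ^ k) * (μ.real univ) := by
      refine norm_integral_le_of_norm_le_const (Eventually.of_forall fun u => ?_)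
      rw [norm_mul, norm_pow, Complex.norm_real, Real.norm_eq_abs, abs_mul, pow_mul]
      set x := ‖u.1 o‖ ^ 2 with hx
      have hx0 : 0 ≤ x := by positivity
      have hx1 : x ≤ 1 := t_le u o
      rcases le_or_gt x s with h | h
      · rw [hz x h]
        simp only [abs_zero, zero_mul, mul_zero]
        positivity
      · rw [max_eq_left h.le, abs_of_nonneg (by positivity : 0 ≤ (x⁻¹) ^ (2 * k))]
        have hxp : 0 < x := lt_trans hs0 h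
        have e : x ^ k * (|η x| * x⁻¹ ^ (2 * k)) = |η x| * x⁻¹ ^ k := by
          have : x ^ k * x⁻¹ ^ (2 * k) = x⁻¹ ^ k := by
            rw [two_mul, pow_add, ← mul_assoc, ← mul_pow, mul_inv_cancel₀ hxp.ne', one_pow,
              one_mul]
          calc x ^ k * (|η x| * x⁻¹ ^ (2 * k)) = |η x| * (x ^ k * x⁻¹ ^ (2 * k)) := by ring
            _ = _ := by rw [this]
        rw [e]
        refine mul_le_mul (hM x hx0 hx1) ?_ (by positivity) hM0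
        exact pow_le_pow_left₀ (by positivity) (inv_anti₀ hs0 h.le) _
    refine h1.trans ?_
    rw [probReal_univ, mul_one]
    exact mul_le_mul_of_nonneg_right hMM (by positivity)
  set A := ∫ u : Sph n, u.1 o ^ (2 * k) *
        ((η₁ (‖u.1 o‖ ^ 2) * ((max (‖u.1 o‖ ^ 2) s)⁻¹) ^ (2 * k) : ℝ) : ℂ) ∂μ with hA
  set B := ∫ u : Sph n, u.1 o ^ (2 * k) *
        ((η₂ (‖u.1 o‖ ^ 2) * ((max (‖u.1 o‖ ^ 2) s)⁻¹) ^ (2 * k) : ℝ) : ℂ) ∂μ with hB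
  refine ⟨A, B, hbd η₁ M₁ hM₁0 hc1 hz1 hM₁ (le_max_left _ _),
    hbd η₂ M₂ hM₂0 hc2 hz2 hM₂ (le_max_right _ _), fun ψ hψ => ?_⟩
  set l₁ := ∫ u : Sph n, ψ (‖u.1 o‖ ^ 2) * ((‖u.1 o‖ ^ 2) ^ (2 * k + 1) : ℝ) ∂(sigma n) with hl₁
  set l₂ := ∫ u : Sph n, ψ (‖u.1 o‖ ^ 2) *
              ((‖u.1 o‖ ^ 2) ^ (2 * k) * (1 - ‖u.1 o‖ ^ 2) : ℝ) ∂(sigma n) with hl₂
  have hcc1 := hζc η₁ hc1
  have hcc2 := hζc η₂ hc2
  -- integrals of `t^{-2k}η_j`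
  have hcomp : ∀ (η : ℝ → ℝ) (w : ℝ → ℝ), (∀ x, x ≤ s → η x = 0) →
      ∫ u : Sph n, ((η (‖u.1 o‖ ^ 2) * ((max (‖u.1 o‖ ^ 2) s)⁻¹) ^ (2 * k) : ℝ) : ℂ) *
        (((‖u.1 o‖ ^ 2) ^ (2 * k) * w (‖u.1 o‖ ^ 2) : ℝ) : ℂ) ∂(sigma n)
      = ((∫ u : Sph n, η (‖u.1 o‖ ^ 2) * w (‖u.1 o‖ ^ 2) ∂(sigma n) : ℝ) : ℂ) := by
    intro η w hz
    rw [← integral_complex_ofReal]
    refine integral_congr_ae (Eventually.of_forall fun u => ?_)
    simp only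
    rw [← Complex.ofReal_mul, ← mul_assoc, hζ η hz]
  have hsplit : ∀ (w : ℝ → ℝ), Continuous w →
      ∫ u : Sph n, (ψ (‖u.1 o‖ ^ 2)
        - l₁ * ((η₁ (‖u.1 o‖ ^ 2) * ((max (‖u.1 o‖ ^ 2) s)⁻¹) ^ (2 * k) : ℝ) : ℂ)
        - l₂ * ((η₂ (‖u.1 o‖ ^ 2) * ((max (‖u.1 o‖ ^ 2) s)⁻¹) ^ (2 * k) : ℝ) : ℂ))
        * (((‖u.1 o‖ ^ 2) ^ (2 * k) * w (‖u.1 o‖ ^ 2) : ℝ) : ℂ) ∂(sigma n)
      = (∫ u : Sph n, ψ (‖u.1 o‖ ^ 2) *
          (((‖u.1 o‖ ^ 2) ^ (2 * k) * w (‖u.1 o‖ ^ 2) : ℝ) : ℂ) ∂(sigma n))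
        - l₁ * ((∫ u : Sph n, η₁ (‖u.1 o‖ ^ 2) * w (‖u.1 o‖ ^ 2) ∂(sigma n) : ℝ) : ℂ)
        - l₂ * ((∫ u : Sph n, η₂ (‖u.1 o‖ ^ 2) * w (‖u.1 o‖ ^ 2) ∂(sigma n) : ℝ) : ℂ) := by
    intro w hw
    rw [← hcomp η₁ w hz1, ← hcomp η₂ w hz2, ← integral_const_mul, ← integral_const_mul,
      ← integral_sub, ← integral_sub]
    · refine integral_congr_ae (Eventually.of_forall fun u => ?_)
      simp only
      ring
    · refine Integrable.sub ?_ ?_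
      · exact integrable_of_cont (by fun_prop) _
      · refine integrable_of_cont (Continuous.mul continuous_const (Continuous.mul
          (hcc1.comp (by fun_prop : Continuous fun u : Sph n => ‖u.1 o‖ ^ 2)) (by fun_prop))) _
    · refine integrable_of_cont (Continuous.mul continuous_const (Continuous.mul
          (hcc2.comp (by fun_prop : Continuous fun u : Sph n => ‖u.1 o‖ ^ 2)) (by fun_prop))) _
    · exact integrable_of_cont (by fun_prop) _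
    · refine integrable_of_cont (Continuous.mul continuous_const (Continuous.mul
          (hcc1.comp (by fun_prop : Continuous fun u : Sph n => ‖u.1 o‖ ^ 2)) (by fun_prop))) _
  have hzero := Lam_eq_zero hμ o (2 * k) (fun x => ψ x
        - l₁ * ((η₁ x * ((max x s)⁻¹) ^ (2 * k) : ℝ) : ℂ)
        - l₂ * ((η₂ x * ((max x s)⁻¹) ^ (2 * k) : ℝ) : ℂ)) (by fun_prop) (by
      have h := hsplit (fun x => x) continuous_id
      simp only [i11, i21, Complex.ofReal_one, Complex.ofReal_zero, mul_one, mul_zero,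
        sub_zero] at h
      have h5 : ∀ x : ℝ, x ^ (2 * k + 1) = x ^ (2 * k) * x := fun x => pow_succ _ _
      simp only [h5]
      rw [h]
      rw [hl₁]
      simp only [h5]
      exact sub_self _) (by
      have h := hsplit (fun x => 1 - x) (by fun_prop)
      simp only [i12, i22, Complex.ofReal_one, Complex.ofReal_zero, mul_one, mul_zero,
        sub_zero] at h
      rw [h]
      exact sub_self _)
  simp only at hzero
  have hint : ∫ u : Sph n, u.1 o ^ (2 * k) * (ψ (‖u.1 o‖ ^ 2)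
        - l₁ * ((η₁ (‖u.1 o‖ ^ 2) * ((max (‖u.1 o‖ ^ 2) s)⁻¹) ^ (2 * k) : ℝ) : ℂ)
        - l₂ * ((η₂ (‖u.1 o‖ ^ 2) * ((max (‖u.1 o‖ ^ 2) s)⁻¹) ^ (2 * k) : ℝ) : ℂ)) ∂μ
      = (∫ u : Sph n, u.1 o ^ (2 * k) * ψ (‖u.1 o‖ ^ 2) ∂μ) - l₁ * A - l₂ * B := by
    rw [hA, hB, ← integral_const_mul, ← integral_const_mul, ← integral_sub, ← integral_sub]
    · refine integral_congr_ae (Eventually.of_forall fun u => ?_)
      simp only
      ring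
    · refine Integrable.sub ?_ ?_
      · exact integrable_of_cont (by fun_prop) _
      · refine integrable_of_cont (Continuous.mul continuous_const (Continuous.mul
          (by fun_prop) (hcc1.comp (by fun_prop : Continuous fun u : Sph n => ‖u.1 o‖ ^ 2)))) _
    · refine integrable_of_cont (Continuous.mul continuous_const (Continuous.mul
          (by fun_prop) (hcc2.comp (by fun_prop : Continuous fun u : Sph n => ‖u.1 o‖ ^ 2)))) _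
    · exact integrable_of_cont (by fun_prop) _
    · refine integrable_of_cont (Continuous.mul continuous_const (Continuous.mul
          (by fun_prop) (hcc1.comp (by fun_prop : Continuous fun u : Sph n => ‖u.1 o‖ ^ 2)))) _
  rw [hint] at hzero
  have : ∫ u : Sph n, u.1 o ^ (2 * k) * ψ (‖u.1 o‖ ^ 2) ∂μ = l₁ * A + l₂ * B := by
    linear_combination hzero
  rw [this]
  ring

end Q71.HZ
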