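import Pool.Agent.Q71.HZ.LemC

/-!
# The real hyperplane `Re u_o = 0` is null
-/

namespace Q71.HZ

open MeasureTheory Set Metric Filter Topology
open scoped ComplexConjugate Pointwise

variable {n : ℕ}

/-- The function `-(u_o/|u_o|)^2`. -/
noncomputable def chi (o : Fin n) (u : Sph n) : ℂ := -(u.1 o ^ 2 / ((‖u.1 o‖ ^ 2 : ℝ) : ℂ))

theorem norm_chi_le (o : Fin n) (u : Sph n) : ‖chi o u‖ ≤ 1 := by
  rw [chi, norm_neg, norm_div, norm_pow, Complex.norm_real, Real.norm_eq_abs,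
    abs_of_nonneg (by positivity)]
  exact div_self_le_one _

theorem chi_eq_one (o : Fin n) (u : Sph n) (h0 : u.1 o ≠ 0) (h : (u.1 o).re = 0) :
    chi o u = 1 := by
  have h1 : u.1 o ^ 2 = -((‖u.1 o‖ ^ 2 : ℝ) : ℂ) := by
    rw [← Complex.normSq_eq_norm_sq, Complex.normSq_apply, h]
    apply Complex.ext
    · simp [pow_two, h]
    · simp [pow_two, h]
  have h2 : ((‖u.1 o‖ ^ 2 : ℝ) : ℂ) ≠ 0 := by
    have : ‖u.1 o‖ ≠ 0 := norm_ne_zero_iff.2 h0
    exact_mod_cast pow_ne_zero 2 this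
  rw [chi, h1, neg_div, neg_neg, div_self h2]

theorem meas_chi (o : Fin n) : Measurable (chi (n := n) o) := by
  unfold chi
  have h1 : Continuous fun u : Sph n => u.1 o := by fun_prop
  have h2 : Continuous fun u : Sph n => ((‖u.1 o‖ ^ 2 : ℝ) : ℂ) := by fun_prop
  exact ((h1.measurable.pow_const 2).div h2.measurable).neg

theorem tend [NeZero n] {μ : Measure (Sph n)} (hμ : IsPE n μ) (o k₀ : Fin n) (hk : k₀ ≠ o)
    (φ : ℝ → ℝ) (hφ : Continuous φ) (δ r : ℝ) (hδ : 0 < δ) (hr0 : 0 < r) (hr : r < 1)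
    (hz : ∀ x, x ≤ δ → φ x = 0) (hz' : ∀ x, r ≤ x → φ x = 0) :
    Tendsto (fun k : ℕ => ∫ u : Sph n, (φ (‖u.1 o‖ ^ 2) : ℂ) * chi o u ^ k ∂μ) atTop (𝓝 0) := by
  haveI := isProb (n := n) (Nat.pos_of_ne_zero (NeZero.ne n))
  haveI := hμ.1
  set s : ℝ := (1 + r) / 2 with hs
  have hrs : r < s := by rw [hs]; linarith
  have hs1 : s < 1 := by rw [hs]; linarith
  have hs0 : 0 < s := lt_trans hr0 hrs
  obtain ⟨C, hC0, hC⟩ := formula hμ o k₀ hk s hs0 hs1
  obtain ⟨M, hM0, hM⟩ := bdd_of_cont φ hφ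
  have hψc : ∀ k : ℕ, Continuous fun x : ℝ => ((φ x * ((max x δ)⁻¹) ^ k : ℝ) : ℂ) := by
    intro k
    have : Continuous fun x : ℝ => (max x δ)⁻¹ :=
      (continuous_id.max continuous_const).inv₀ fun x =>
        (lt_of_lt_of_le hδ (le_max_right _ _)).ne'
    fun_prop
  have hpt : ∀ k : ℕ, ∀ x, 0 ≤ x → x ≤ 1 → |φ x * ((max x δ)⁻¹) ^ k| * x ^ (2 * k) ≤ M * r ^ k := by
    intro k x h0 h1
    rcases le_or_gt x δ with h | h
    · rw [hz x h, zero_mul, abs_zero, zero_mul]; positivity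
    · rcases le_or_gt r x with h' | h'
      · rw [hz' x h', zero_mul, abs_zero, zero_mul]; positivity
      · have hxp : 0 < x := lt_trans hδ h
        rw [max_eq_left h.le, abs_mul, abs_of_nonneg (by positivity : 0 ≤ x⁻¹ ^ k), mul_assoc]
        have : x⁻¹ ^ k * x ^ (2 * k) = x ^ k := by
          rw [two_mul, pow_add, ← mul_assoc, ← mul_pow, inv_mul_cancel₀ hxp.ne', one_pow, one_mul]
        rw [this]
        exact mul_le_mul (hM x h0 h1) (pow_le_pow_left₀ h0 h'.le _) (by positivity) hM0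
  have hb : ∀ (k : ℕ) (w : ℝ → ℝ), (∀ x, 0 ≤ x → x ≤ 1 → |w x| ≤ 1) →
      ‖∫ u : Sph n, ((φ (‖u.1 o‖ ^ 2) * ((max (‖u.1 o‖ ^ 2) δ)⁻¹) ^ k : ℝ) : ℂ) *
        (((‖u.1 o‖ ^ 2) ^ (2 * k) * w (‖u.1 o‖ ^ 2) : ℝ) : ℂ) ∂(sigma n)‖ ≤ M * r ^ k := by
    intro k w hw
    have h1 : ‖∫ u : Sph n, ((φ (‖u.1 o‖ ^ 2) * ((max (‖u.1 o‖ ^ 2) δ)⁻¹) ^ k : ℝ) : ℂ) *
        (((‖u.1 o‖ ^ 2) ^ (2 * k) * w (‖u.1 o‖ ^ 2) : ℝ) : ℂ) ∂(sigma n)‖
        ≤ (M * r ^ k) * ((sigma n).real univ) := by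
      refine norm_integral_le_of_norm_le_const (Eventually.of_forall fun u => ?_)
      rw [norm_mul, Complex.norm_real, Complex.norm_real, Real.norm_eq_abs, Real.norm_eq_abs,
        abs_mul (_ ^ (2 * k))]
      set x := ‖u.1 o‖ ^ 2 with hx
      have hx0 : 0 ≤ x := by positivity
      have hx1 : x ≤ 1 := t_le u o
      rw [abs_of_nonneg (by positivity : 0 ≤ x ^ (2 * k)), ← mul_assoc]
      calc _ ≤ (M * r ^ k) * 1 := mul_le_mul (hpt k x hx0 hx1) (hw x hx0 hx1) (abs_nonneg _)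
            (by positivity)
        _ = _ := mul_one _
    rwa [probReal_univ, mul_one] at h1
  have hbound : ∀ k : ℕ, ‖∫ u : Sph n, (φ (‖u.1 o‖ ^ 2) : ℂ) * chi o u ^ k ∂μ‖
      ≤ (2 * C * M) * (s⁻¹ * r) ^ k := by
    intro k
    obtain ⟨A, B, hA, hB, hAB⟩ := hC k
    have h1 := hAB _ (hψc k)
    have h2 : ∫ u : Sph n, u.1 o ^ (2 * k) *
        ((φ (‖u.1 o‖ ^ 2) * ((max (‖u.1 o‖ ^ 2) δ)⁻¹) ^ k : ℝ) : ℂ) ∂μ
        = (-1) ^ k * ∫ u : Sph n, (φ (‖u.1 o‖ ^ 2) : ℂ) * chi o u ^ k ∂μ := by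
      rw [← integral_const_mul]
      refine integral_congr_ae (Eventually.of_forall fun u => ?_)
      simp only
      rcases le_or_gt (‖u.1 o‖ ^ 2) δ with h | h
      · rw [hz _ h]; simp
      · rw [max_eq_left h.le, chi, neg_pow (u.1 o ^ 2 / ((‖u.1 o‖ ^ 2 : ℝ) : ℂ)), div_pow]
        have h3 : ((-1 : ℂ)) ^ k * (-1) ^ k = 1 := by rw [← mul_pow]; simp
        push_cast
        rw [pow_mul (u.1 o), div_eq_mul_inv, inv_pow]
        linear_combination -(φ (‖u.1 o‖ ^ 2) : ℂ) * (u.1 o ^ 2) ^ k *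
          (((‖u.1 o‖ : ℂ) ^ 2) ^ k)⁻¹ * h3
    rw [h2] at h1
    have h4 : ‖∫ u : Sph n, (φ (‖u.1 o‖ ^ 2) : ℂ) * chi o u ^ k ∂μ‖
        = ‖(-1) ^ k * ∫ u : Sph n, (φ (‖u.1 o‖ ^ 2) : ℂ) * chi o u ^ k ∂μ‖ := by
      rw [norm_mul, norm_pow, norm_neg, norm_one, one_pow, one_mul]
    rw [h4, h1]
    refine (norm_add_le _ _).trans ?_
    rw [norm_mul, norm_mul]
    have h5 := hb k (fun x => x) (fun x h0 h1 => by rw [abs_of_nonneg h0]; exact h1)
    have h6 := hb k (fun x => 1 - x) (fun x h0 h1 => by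
      rw [abs_of_nonneg (by linarith)]; linarith)
    simp only [← pow_succ] at h5
    have h7 := mul_le_mul hA h5 (norm_nonneg _) (by positivity)
    have h8 := mul_le_mul hB h6 (norm_nonneg _) (by positivity)
    refine (add_le_add h7 h8).trans (le_of_eq ?_)
    rw [mul_pow]
    ring
  have h9 : Tendsto (fun k : ℕ => (2 * C * M) * (s⁻¹ * r) ^ k) atTop (𝓝 0) := by
    have h10 : Tendsto (fun k : ℕ => (s⁻¹ * r) ^ k) atTop (𝓝 0) :=
      tendsto_pow_atTop_nhds_zero_of_lt_one (by positivity) (by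
        rw [inv_mul_lt_iff₀ hs0]; linarith)
    simpa using h10.const_mul (2 * C * M)
  exact squeeze_zero_norm hbound h9

/-- pointwise Cesàro convergence -/
theorem cesaro_pt (χ : ℂ) (h : ‖χ‖ ≤ 1) :
    Tendsto (fun N : ℕ => ((N : ℝ)⁻¹ : ℝ) • ∑ i ∈ Finset.range N, χ ^ i) atTop
      (𝓝 (if χ = 1 then 1 else 0)) := by
  by_cases h1 : χ = 1
  · rw [if_pos h1]
    refine tendsto_const_nhds.congr' ?_
    filter_upwards [eventually_gt_atTop 0] with N hN
    subst h1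
    simp only [one_pow, Finset.sum_const, Finset.card_range, nsmul_eq_mul, mul_one,
      Complex.real_smul]
    have : (N : ℂ) ≠ 0 := by exact_mod_cast hN.ne'
    push_cast
    field_simp
  · rw [if_neg h1]
    have h2 : χ - 1 ≠ 0 := sub_ne_zero.2 h1
    have h3 : ∀ N : ℕ, ‖((N : ℝ)⁻¹ : ℝ) • ∑ i ∈ Finset.range N, χ ^ i‖
        ≤ (N : ℝ)⁻¹ * (2 / ‖χ - 1‖) := by
      intro N
      rw [norm_smul, Real.norm_eq_abs, abs_of_nonneg (by positivity)]
      refine mul_le_mul_of_nonneg_left ?_ (by positivity)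
      rw [geom_sum_eq h1, norm_div]
      refine div_le_div_of_nonneg_right ?_ (norm_nonneg _)
      refine (norm_sub_le _ _).trans ?_
      rw [norm_pow, norm_one]
      have := pow_le_one₀ (norm_nonneg χ) h (n := N)
      linarith
    refine squeeze_zero_norm h3 ?_
    have := (tendsto_inv_atTop_nhds_zero_nat (𝕜 := ℝ)).mul_const (2 / ‖χ - 1‖)
    simpa using this

theorem null_mid [NeZero n] {μ : Measure (Sph n)} (hμ : IsPE n μ) (o k₀ : Fin n) (hk : k₀ ≠ o)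
    (δ r : ℝ) (hδ : 0 < δ) (hδr : δ < r) (hr : r < 1) :
    μ {u | (u.1 o).re = 0 ∧ δ < ‖u.1 o‖ ^ 2 ∧ ‖u.1 o‖ ^ 2 < r} = 0 := by
  haveI := hμ.1
  set φ : ℝ → ℝ := fun x => max 0 ((x - δ) * (r - x)) with hφ
  have hφc : Continuous φ := by rw [hφ]; fun_prop
  have hz : ∀ x, x ≤ δ → φ x = 0 := fun x hx =>
    max_eq_left (mul_nonpos_of_nonpos_of_nonneg (by linarith) (by linarith))
  have hz' : ∀ x, r ≤ x → φ x = 0 := fun x hx =>
    max_eq_left (mul_nonpos_of_nonneg_of_nonpos (by linarith) (by linarith))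
  obtain ⟨M, hM0, hM⟩ := bdd_of_cont φ hφc
  have h1 := (tend hμ o k₀ hk φ hφc δ r hδ (by linarith) hr hz hz').cesaro_smul
  have hmφ : Continuous fun u : Sph n => (φ (‖u.1 o‖ ^ 2) : ℂ) := by fun_prop
  have hmeas : ∀ N : ℕ, Measurable fun u : Sph n => (φ (‖u.1 o‖ ^ 2) : ℂ) *
      (((N : ℝ)⁻¹ : ℝ) • ∑ i ∈ Finset.range N, chi o u ^ i) := by
    intro N
    have h9 : Measurable fun u : Sph n => ∑ i ∈ Finset.range N, chi o u ^ i :=
      Finset.measurable_fun_sum _ fun i _ => (meas_chi o).pow_const i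
    have h10 : Measurable fun u : Sph n => ((N : ℝ)⁻¹ : ℝ) • ∑ i ∈ Finset.range N, chi o u ^ i :=
      by measurability
    exact hmφ.measurable.mul h10
  have hint : ∀ N : ℕ, ∫ u : Sph n, (φ (‖u.1 o‖ ^ 2) : ℂ) *
      (((N : ℝ)⁻¹ : ℝ) • ∑ i ∈ Finset.range N, chi o u ^ i) ∂μ
      = ((N : ℝ)⁻¹ : ℝ) • ∑ i ∈ Finset.range N,
        ∫ u : Sph n, (φ (‖u.1 o‖ ^ 2) : ℂ) * chi o u ^ i ∂μ := by
    intro N
    rw [← integral_finsetSum, ← integral_smul]
    · refine integral_congr_ae (Eventually.of_forall fun u => ?_)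
      simp only [Complex.real_smul, ← Finset.mul_sum]
      ring
    · intro i _
      refine Integrable.of_bound (C := M) (hmφ.measurable.mul
        ((meas_chi o).pow_const i)).aestronglyMeasurable (Eventually.of_forall fun u => ?_)
      rw [norm_mul, Complex.norm_real, norm_pow]
      calc _ ≤ M * 1 := mul_le_mul (hM _ (by positivity) (t_le u o))
            (pow_le_one₀ (norm_nonneg _) (norm_chi_le o u)) (by positivity) hM0
        _ = _ := mul_one _
  have h2 : Tendsto (fun N : ℕ => ∫ u : Sph n, (φ (‖u.1 o‖ ^ 2) : ℂ) *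
      (((N : ℝ)⁻¹ : ℝ) • ∑ i ∈ Finset.range N, chi o u ^ i) ∂μ) atTop
      (𝓝 (∫ u : Sph n, (φ (‖u.1 o‖ ^ 2) : ℂ) * (if chi o u = 1 then 1 else 0) ∂μ)) := by
    refine tendsto_integral_of_dominated_convergence (fun _ => M)
      (fun N => (hmeas N).aestronglyMeasurable) (integrable_const _) (fun N =>
        Eventually.of_forall fun u => ?_) (Eventually.of_forall fun u => ?_)
    · rw [norm_mul, Complex.norm_real]
      have h3 : ‖((N : ℝ)⁻¹ : ℝ) • ∑ i ∈ Finset.range N, chi o u ^ i‖ ≤ 1 := by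
        rw [norm_smul, Real.norm_eq_abs, abs_of_nonneg (by positivity)]
        have h4 : ‖∑ i ∈ Finset.range N, chi o u ^ i‖ ≤ N := by
          refine (norm_sum_le _ _).trans ?_
          calc ∑ i ∈ Finset.range N, ‖chi o u ^ i‖ ≤ ∑ i ∈ Finset.range N, (1 : ℝ) :=
                Finset.sum_le_sum fun i _ => by
                  rw [norm_pow]; exact pow_le_one₀ (norm_nonneg _) (norm_chi_le o u)
            _ = N := by simp
        rcases Nat.eq_zero_or_pos N with h5 | h5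
        · subst h5; simp
        · have h6 : (0 : ℝ) < N := by exact_mod_cast h5
          calc (N : ℝ)⁻¹ * ‖∑ i ∈ Finset.range N, chi o u ^ i‖ ≤ (N : ℝ)⁻¹ * N :=
                mul_le_mul_of_nonneg_left h4 (by positivity)
            _ = 1 := inv_mul_cancel₀ h6.ne'
      calc _ ≤ M * 1 := mul_le_mul (hM _ (by positivity) (t_le u o)) h3 (norm_nonneg _) hM0
        _ = _ := mul_one _
    · exact (cesaro_pt _ (norm_chi_le o u)).const_mul _
  have h3 : ∫ u : Sph n, (φ (‖u.1 o‖ ^ 2) : ℂ) * (if chi o u = 1 then 1 else 0) ∂μ = 0 := by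
    refine tendsto_nhds_unique h2 ?_
    simp_rw [hint]
    exact h1
  have h4 : ∫ u : Sph n, φ (‖u.1 o‖ ^ 2) * (if chi o u = 1 then 1 else 0) ∂μ = 0 := by
    have h5 : ∫ u : Sph n, ((φ (‖u.1 o‖ ^ 2) * (if chi o u = 1 then 1 else 0) : ℝ) : ℂ) ∂μ
        = 0 := by
      rw [← h3]
      refine integral_congr_ae (Eventually.of_forall fun u => ?_)
      simp only
      split_ifs <;> simp
    rw [integral_complex_ofReal] at h5
    exact_mod_cast h5
  have hmset : MeasurableSet {u : Sph n | chi o u = 1} := meas_chi o (measurableSet_singleton _)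
  have h6 : Measurable fun u : Sph n => φ (‖u.1 o‖ ^ 2) * (if chi o u = 1 then (1 : ℝ) else 0) := by
    have h7 : Continuous fun u : Sph n => φ (‖u.1 o‖ ^ 2) := by fun_prop
    exact h7.measurable.mul (Measurable.ite hmset measurable_const measurable_const)
  have hφ0 : ∀ x, 0 ≤ φ x := fun x => le_max_left _ _
  rw [integral_eq_zero_iff_of_nonneg (fun u => by
    change 0 ≤ φ (‖u.1 o‖ ^ 2) * (if chi o u = 1 then (1 : ℝ) else 0)
    split_ifs
    · rw [mul_one]; exact hφ0 _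
    · rw [mul_zero]) (Integrable.of_bound (C := M) h6.aestronglyMeasurable
      (Eventually.of_forall fun u => by
        rw [norm_mul]
        have h8 : ‖(if chi o u = 1 then (1 : ℝ) else 0)‖ ≤ 1 := by split_ifs <;> simp
        calc _ ≤ M * 1 := mul_le_mul (hM _ (by positivity) (t_le u o)) h8 (norm_nonneg _) hM0
          _ = _ := mul_one _))] at h4
  refine measure_mono_null ?_ (ae_iff.1 h4)
  rintro u ⟨hu1, hu2, hu3⟩
  have h9 : u.1 o ≠ 0 := by
    intro h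
    rw [h] at hu2
    simp at hu2
    linarith
  simp only [mem_ofPred_eq, chi_eq_one o u h9 hu1, if_true, mul_one, Pi.zero_apply]
  have h10 : 0 < (‖u.1 o‖ ^ 2 - δ) * (r - ‖u.1 o‖ ^ 2) := mul_pos (by linarith) (by linarith)
  exact (lt_of_lt_of_le h10 (le_max_right _ _)).ne'

end Q71.HZ
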