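import Pool.Agent.Q71.HZ.LemD

/-!
# The real hyperplane `Re u_o = 0` is null, continued
-/

namespace Q71.HZ

open MeasureTheory Set Metric Filter Topology
open scoped ComplexConjugate Pointwise

variable {n : ℕ}

theorem tent_tendsto (x c : ℝ) :
    Tendsto (fun N : ℕ => max 0 (1 - (N : ℝ) * |x - c|)) atTop (𝓝 (if x = c then 1 else 0)) := by
  by_cases h : x = c
  · subst h
    simp
  · rw [if_neg h]
    have h1 : 0 < |x - c| := abs_pos.2 (sub_ne_zero.2 h)
    refine tendsto_const_nhds.congr' ?_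
    filter_upwards [eventually_ge_atTop (Nat.ceil (|x - c|⁻¹))] with N hN
    have h2 : |x - c|⁻¹ ≤ N := (Nat.le_ceil _).trans (by exact_mod_cast hN)
    have h3 : 1 ≤ (N : ℝ) * |x - c| := by
      rw [inv_le_iff_one_le_mul₀ h1] at h2
      exact h2
    rw [max_eq_left (by linarith)]

theorem tent_bd (x c : ℝ) (N : ℕ) : |max 0 (1 - (N : ℝ) * |x - c|)| ≤ 1 := by
  rw [abs_of_nonneg (le_max_left _ _)]
  refine max_le (by norm_num) ?_
  have : 0 ≤ (N : ℝ) * |x - c| := by positivity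
  linarith

theorem null_level [NeZero n] {μ : Measure (Sph n)} (hμ : IsPE n μ) (o k₀ : Fin n) (hk : k₀ ≠ o)
    (c : ℝ) (hc : sigma n {u | ‖u.1 o‖ ^ 2 = c} = 0) : μ {u | ‖u.1 o‖ ^ 2 = c} = 0 := by
  haveI := isProb (n := n) (Nat.pos_of_ne_zero (NeZero.ne n))
  haveI := hμ.1
  obtain ⟨C, hC0, hC⟩ := formula hμ o k₀ hk (1 / 2) (by norm_num) (by norm_num)
  obtain ⟨A, B, -, -, hAB⟩ := hC 0
  set ψ : ℕ → ℝ → ℂ := fun N x => ((max 0 (1 - (N : ℝ) * |x - c|) : ℝ) : ℂ) with hψ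
  have hψc : ∀ N, Continuous (ψ N) := by
    intro N
    have : Continuous fun x : ℝ => max 0 (1 - (N : ℝ) * |x - c|) :=
      continuous_const.max (continuous_const.sub (continuous_const.mul
        (continuous_id.sub continuous_const).abs))
    exact Complex.continuous_ofReal.comp this
  have hψb : ∀ N x, ‖ψ N x‖ ≤ 1 := by
    intro N x
    rw [hψ]
    simp only
    rw [Complex.norm_real, Real.norm_eq_abs]
    exact tent_bd _ _ _
  have hψt : ∀ x, Tendsto (fun N => ψ N x) atTop (𝓝 (if x = c then 1 else 0)) := by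
    intro x
    have h1 := (Complex.continuous_ofReal.tendsto _).comp (tent_tendsto x c)
    have h2 : (((if x = c then (1 : ℝ) else 0) : ℝ) : ℂ) = if x = c then 1 else 0 := by
      split_ifs <;> simp
    rw [h2] at h1
    exact h1
  have hcontT : Continuous fun u : Sph n => ‖u.1 o‖ ^ 2 := by fun_prop
  -- limit on the left
  have hL : Tendsto (fun N => ∫ u : Sph n, u.1 o ^ (2 * 0) * ψ N (‖u.1 o‖ ^ 2) ∂μ) atTop
      (𝓝 (∫ u : Sph n, (if ‖u.1 o‖ ^ 2 = c then (1 : ℂ) else 0) ∂μ)) := by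
    refine tendsto_integral_of_dominated_convergence (fun _ => 1)
      (fun N => (Continuous.aestronglyMeasurable ?_)) (integrable_const _) (fun N =>
        Eventually.of_forall fun u => ?_) (Eventually.of_forall fun u => ?_)
    · have h1 : Continuous fun u : Sph n => u.1 o ^ (2 * 0) := by fun_prop
      exact h1.mul ((hψc N).comp hcontT)
    · rw [mul_zero, pow_zero, one_mul]
      exact hψb N _
    · simp only [mul_zero, pow_zero, one_mul]
      exact hψt _
  have hR : ∀ w : ℝ → ℝ, Continuous w → (∀ x, 0 ≤ x → x ≤ 1 → |w x| ≤ 1) →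
      Tendsto (fun N => ∫ u : Sph n, ψ N (‖u.1 o‖ ^ 2) * (w (‖u.1 o‖ ^ 2) : ℂ) ∂(sigma n)) atTop
      (𝓝 0) := by
    intro w hw hw1
    have h1 : Tendsto (fun N => ∫ u : Sph n, ψ N (‖u.1 o‖ ^ 2) * (w (‖u.1 o‖ ^ 2) : ℂ)
        ∂(sigma n)) atTop (𝓝 (∫ u : Sph n, (if ‖u.1 o‖ ^ 2 = c then (1 : ℂ) else 0) *
          (w (‖u.1 o‖ ^ 2) : ℂ) ∂(sigma n))) := by
      refine tendsto_integral_of_dominated_convergence (fun _ => 1)
        (fun N => (Continuous.aestronglyMeasurable ?_)) (integrable_const _) (fun N =>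
          Eventually.of_forall fun u => ?_) (Eventually.of_forall fun u => ?_)
      · exact ((hψc N).comp hcontT).mul (Complex.continuous_ofReal.comp (hw.comp hcontT))
      · rw [norm_mul]
        have h7 : ‖(w (‖u.1 o‖ ^ 2) : ℂ)‖ ≤ 1 := by
          rw [Complex.norm_real]
          exact hw1 _ (by positivity) (t_le u o)
        calc _ ≤ (1 : ℝ) * 1 := mul_le_mul (hψb _ _) h7 (norm_nonneg _) zero_le_one
          _ = 1 := mul_one _
      · exact (hψt _).mul_const _
    have h2 : ∫ u : Sph n, (if ‖u.1 o‖ ^ 2 = c then (1 : ℂ) else 0) *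
          (w (‖u.1 o‖ ^ 2) : ℂ) ∂(sigma n) = 0 := by
      refine integral_eq_zero_of_ae ?_
      rw [Filter.EventuallyEq, ae_iff]
      refine measure_mono_null ?_ hc
      intro u hu
      by_contra hcon
      apply hu
      have : ¬ ‖u.1 o‖ ^ 2 = c := hcon
      rw [if_neg this, zero_mul]
      rfl
    rwa [h2] at h1
  have h0 : ∫ u : Sph n, (if ‖u.1 o‖ ^ 2 = c then (1 : ℂ) else 0) ∂μ = 0 := by
    refine tendsto_nhds_unique hL ?_
    have h3 := ((hR (fun x => x) continuous_id (fun x h0 h1 => by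
      rw [abs_of_nonneg h0]; exact h1)).const_mul A).add
      ((hR (fun x => 1 - x) (by fun_prop) (fun x h0 h1 => by
      rw [abs_of_nonneg (by linarith)]; linarith)).const_mul B)
    rw [mul_zero, mul_zero, add_zero] at h3
    refine h3.congr fun N => ?_
    rw [hAB _ (hψc N)]
    simp only [mul_zero, zero_add, pow_one, pow_zero, one_mul]
  have h1 : ∫ u : Sph n, (if ‖u.1 o‖ ^ 2 = c then (1 : ℂ) else 0) ∂μ
      = ((μ.real {u | ‖u.1 o‖ ^ 2 = c} : ℝ) : ℂ) := by
    have hm : MeasurableSet {u : Sph n | ‖u.1 o‖ ^ 2 = c} :=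
      (isClosed_eq hcontT continuous_const).measurableSet
    have h4 : (fun u : Sph n => (if ‖u.1 o‖ ^ 2 = c then (1 : ℂ) else 0))
        = Set.indicator {u : Sph n | ‖u.1 o‖ ^ 2 = c} (fun _ => (1 : ℂ)) := by
      funext u
      simp [Set.indicator]
    rw [h4, integral_indicator hm, integral_const]
    simp [Measure.real]
  rw [h1] at h0
  have h2 : μ.real {u | ‖u.1 o‖ ^ 2 = c} = 0 := by exact_mod_cast h0
  exact (measureReal_eq_zero_iff).1 h2

/-- **The real hyperplane `Re u_o = 0` is null.** -/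
theorem null_coord [NeZero n] {μ : Measure (Sph n)} (hμ : IsPE n μ) (o k₀ : Fin n)
    (hk : k₀ ≠ o) : μ {u | (u.1 o).re = 0} = 0 := by
  have h0 : μ {u | ‖u.1 o‖ ^ 2 = 0} = 0 := null_level hμ o k₀ hk 0 (by
    refine measure_mono_null ?_ (coord_null (n := n) o)
    intro u hu
    have : ‖u.1 o‖ ^ 2 = 0 := hu
    simpa using this)
  have h1 : μ {u | ‖u.1 o‖ ^ 2 = 1} = 0 := null_level hμ o k₀ hk 1 (by
    refine measure_mono_null ?_ (coord_null (n := n) k₀)
    intro u hu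
    have h2 : ‖u.1 o‖ ^ 2 = 1 := hu
    have h3 := sum_norm_sq u
    rw [← Finset.add_sum_erase _ _ (Finset.mem_univ o), h2] at h3
    have h4 : ∑ x ∈ Finset.univ.erase o, ‖u.1 x‖ ^ 2 = 0 := by linarith
    rw [Finset.sum_eq_zero_iff_of_nonneg (fun i _ => by positivity)] at h4
    have h5 := h4 k₀ (Finset.mem_erase.2 ⟨hk, Finset.mem_univ _⟩)
    simpa using h5)
  have h2 : ∀ j : ℕ, μ {u | (u.1 o).re = 0 ∧ 1 / ((j : ℝ) + 3) < ‖u.1 o‖ ^ 2 ∧
      ‖u.1 o‖ ^ 2 < 1 - 1 / ((j : ℝ) + 3)} = 0 := by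
    intro j
    have h3 : (0 : ℝ) < 1 / ((j : ℝ) + 3) := by positivity
    have h4 : 1 / ((j : ℝ) + 3) ≤ 1 / 3 := by
      apply one_div_le_one_div_of_le (by norm_num)
      have : (0 : ℝ) ≤ j := Nat.cast_nonneg _
      linarith
    exact null_mid hμ o k₀ hk _ _ h3 (by linarith) (by linarith)
  refine measure_mono_null ?_ (measure_union_null (measure_union_null h0 h1)
    (measure_iUnion_null h2))
  intro u hu
  have hu' : (u.1 o).re = 0 := hu
  by_cases hu0 : ‖u.1 o‖ ^ 2 = 0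
  · exact Or.inl (Or.inl hu0)
  by_cases hu1 : ‖u.1 o‖ ^ 2 = 1
  · exact Or.inl (Or.inr hu1)
  right
  rw [mem_iUnion]
  have h3 : 0 < ‖u.1 o‖ ^ 2 := lt_of_le_of_ne (by positivity) (Ne.symm hu0)
  have h4 : ‖u.1 o‖ ^ 2 < 1 := lt_of_le_of_ne (t_le u o) hu1
  obtain ⟨j, hj⟩ := exists_nat_one_div_lt (lt_min h3 (sub_pos.2 h4))
  have h5 : 1 / ((j : ℝ) + 3) < 1 / ((j : ℝ) + 1) := by
    apply one_div_lt_one_div_of_lt (by positivity)
    linarith
  have h6 := lt_min_iff.1 hj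
  exact ⟨j, hu', by linarith [h6.1], by linarith [h6.2]⟩

end Q71.HZ
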