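import Pool.Agent.Q71.HZ.Inv

/-!
# The surface measure is in `P_H`
-/

namespace Q71.HZ

open MeasureTheory Set Metric Filter Topology
open scoped ComplexConjugate Pointwise InnerProductSpace

variable {n : ℕ}

theorem herm_eq (z u : Cn n) : herm z u = inner ℂ u z := by
  rw [herm, PiLp.inner_apply]
  rfl

theorem norm_herm_le (z : Cn n) (u : Sph n) : ‖herm z u.1‖ ≤ ‖z‖ := by
  rw [herm_eq]
  have h1 := norm_inner_le_norm (𝕜 := ℂ) u.1 z
  have h2 : ‖u.1‖ = 1 := by simp
  rwa [h2, one_mul] at h1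

/-- the full rotation -/
noncomputable def fullL (ζ : ℂ) (h : ‖ζ‖ = 1) : Cn n ≃ₗᵢ[ℂ] Cn n :=
  diagL (fun _ => ζ) (fun _ => h)

theorem fullL_apply (ζ : ℂ) (h : ‖ζ‖ = 1) (u : Cn n) : fullL ζ h u = ζ • u := by
  ext i
  rw [fullL, diagL_apply]
  simp

theorem herm_full (ζ : ℂ) (h : ‖ζ‖ = 1) (z u : Cn n) :
    herm z (fullL ζ h u) = conj ζ * herm z u := by
  rw [fullL_apply, herm_eq, herm_eq, inner_smul_left]

theorem herm_cont (z : Cn n) : Continuous fun u : Sph n => herm z u.1 := by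
  unfold herm
  fun_prop

theorem moment_zero (z : Cn n) (k : ℕ) (hk : k ≠ 0) :
    ∫ u : Sph n, herm z u.1 ^ k ∂(sigma n) = 0 := by
  obtain ⟨ζ, h1, h2⟩ := exists_rot (a := 0) (b := k) (Ne.symm hk)
  refine integral_eq_zero_of_rot (fullL ζ h1) (fun u => herm z u ^ k) (conj ζ ^ k) ?_ fun u => ?_
  · simpa using h2
  · change herm z (fullL ζ h1 u) ^ k = _
    rw [herm_full, mul_pow, smul_eq_mul]

theorem moment_vec (z : Cn n) (k : ℕ) (hk : k ≠ 1) :
    ∫ u : Sph n, herm z u.1 ^ k • u.1 ∂(sigma n) = 0 := by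
  obtain ⟨ζ, h1, h2⟩ := exists_rot (a := 1) (b := k) (Ne.symm hk)
  refine integral_eq_zero_of_rot (fullL ζ h1) (fun u => herm z u ^ k • u) (ζ ^ 1 * conj ζ ^ k) h2
    fun u => ?_
  change herm z (fullL ζ h1 u) ^ k • (fullL ζ h1 u) = _
  rw [herm_full, fullL_apply, mul_pow, smul_smul, smul_smul]
  congr 1
  ring

theorem sq_moment [NeZero n] (l : Fin n) :
    ∫ u : Sph n, ((‖u.1 l‖ ^ 2 : ℝ) : ℂ) ∂(sigma n) = (n : ℂ)⁻¹ := by
  haveI := isProb (n := n) (Nat.pos_of_ne_zero (NeZero.ne n))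
  have hsym : ∀ k : Fin n, ∫ u : Sph n, ((‖u.1 k‖ ^ 2 : ℝ) : ℂ) ∂(sigma n)
      = ∫ u : Sph n, ((‖u.1 l‖ ^ 2 : ℝ) : ℂ) ∂(sigma n) := by
    intro k
    have h := integral_comp (permL (Equiv.swap k l))
      (fun u : Cn n => ((‖u k‖ ^ 2 : ℝ) : ℂ))
    rw [← h]
    refine integral_congr_ae (Filter.Eventually.of_forall fun u => ?_)
    simp only [permL_apply, Equiv.symm_swap, Equiv.swap_apply_left]
  have h1 : ∫ u : Sph n, ∑ k : Fin n, ((‖u.1 k‖ ^ 2 : ℝ) : ℂ) ∂(sigma n) = 1 := by
    have : ∀ u : Sph n, ∑ k : Fin n, ((‖u.1 k‖ ^ 2 : ℝ) : ℂ) = 1 := by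
      intro u
      rw [← Complex.ofReal_sum, sum_norm_sq, Complex.ofReal_one]
    rw [integral_congr_ae (Filter.Eventually.of_forall this)]
    simp
  rw [integral_finsetSum _ (fun k _ => integrable_of_cont (by fun_prop) _),
    Finset.sum_congr rfl (fun k _ => hsym k)] at h1
  simp only [Finset.sum_const, Finset.card_univ, Fintype.card_fin, nsmul_eq_mul] at h1
  exact eq_inv_of_mul_eq_one_right h1

theorem integral_apply' [NeZero n] {μ : Measure (Sph n)} {g : Sph n → Cn n} (hg : Integrable g μ)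
    (l : Fin n) : (∫ u, g u ∂μ) l = ∫ u, g u l ∂μ := by
  have := (EuclideanSpace.proj l : Cn n →L[ℂ] ℂ).integral_comp_comm hg
  exact this.symm

theorem moment_one [NeZero n] (z : Cn n) :
    ∫ u : Sph n, herm z u.1 ^ 1 • u.1 ∂(sigma n) = (n : ℂ)⁻¹ • z := by
  haveI := isProb (n := n) (Nat.pos_of_ne_zero (NeZero.ne n))
  have hint : Integrable (fun u : Sph n => herm z u.1 ^ 1 • u.1) (sigma n) := by
    refine integrable_of_cont ?_ _
    exact ((herm_cont z).pow 1).smul continuous_subtype_val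
  ext l
  rw [integral_apply' hint]
  have h1 : ∀ u : Sph n, (herm z u.1 ^ 1 • u.1) l = ∑ j, z j * (conj (u.1 j) * u.1 l) := by
    intro u
    rw [PiLp.smul_apply, smul_eq_mul, pow_one, herm, Finset.sum_mul]
    refine Finset.sum_congr rfl fun j _ => by ring
  rw [integral_congr_ae (Filter.Eventually.of_forall h1),
    integral_finsetSum _ (fun k _ => integrable_of_cont (by fun_prop) _)]
  rw [Finset.sum_eq_single l]
  · rw [integral_const_mul]
    have h2 : ∀ u : Sph n, conj (u.1 l) * u.1 l = ((‖u.1 l‖ ^ 2 : ℝ) : ℂ) := by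
      intro u
      rw [mul_comm, Complex.mul_conj, Complex.normSq_eq_norm_sq]
    rw [integral_congr_ae (Filter.Eventually.of_forall h2), sq_moment]
    simp [mul_comm]
  · intro j _ hj
    rw [integral_const_mul]
    obtain ⟨ζ, h3, h4⟩ := exists_rot (a := 1) (b := 0) one_ne_zero
    have h5 := integral_eq_zero_of_rot (rotL l ζ h3) (fun u : Cn n => conj (u j) * u l)
      (ζ ^ 1 * conj ζ ^ 0) h4 (fun u => by
        change conj (rotL l ζ h3 u j) * rotL l ζ h3 u l = _
        rw [rotL_self, rotL_ne _ _ _ _ _ hj, smul_eq_mul]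
        ring)
    rw [h5, mul_zero]
  · intro h
    exact absurd (Finset.mem_univ l) h

theorem sigma_isPE (hn : 0 < n) : IsPE n (sigma n) := by
  refine ⟨isProb hn, fun G ε hε => ⟨fun _ => 1, ?_, fun g _ => by simpa using hε⟩⟩
  have h1 : (fun _ : Sph n => (1 : ℂ))
      = ∑ k : Fin n, fun u : Sph n => conj (u.1 k) *
        MvPolynomial.eval (fun i => u.1 i) (MvPolynomial.X k) := by
    funext u
    rw [Finset.sum_apply]
    simp only [MvPolynomial.eval_X]
    have h2 : ∀ k, conj (u.1 k) * u.1 k = ((‖u.1 k‖ ^ 2 : ℝ) : ℂ) := by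
      intro k
      rw [mul_comm, Complex.mul_conj, Complex.normSq_eq_norm_sq]
    rw [Finset.sum_congr rfl fun k _ => h2 k, ← Complex.ofReal_sum, sum_norm_sq,
      Complex.ofReal_one]
  rw [h1]
  refine Submodule.sum_mem _ fun k _ => poly_mem k _ ?_
  rw [← MvPolynomial.constantCoeff_eq]
  simp

theorem id_isM : IsM n (fun z => z) := by
  refine ⟨differentiableOn_id, rfl, ?_, ?_⟩
  · exact fderiv_fun_id
  · intro z _ hz
    rw [herm_eq, inner_self_eq_norm_sq_to_K]
    have : 0 < ‖z‖ := norm_pos_iff.2 hz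
    have h2 : (((‖z‖ : ℝ) : ℂ) ^ 2).re = ‖z‖ ^ 2 := by
      rw [← Complex.ofReal_pow, Complex.ofReal_re]
    change 0 < (((‖z‖ : ℝ) : ℂ) ^ 2).re
    rw [h2]
    positivity

theorem sigma_formula [NeZero n] (z : Cn n) (hz : z ∈ ball (0 : Cn n) 1) :
    z = ∫ u : Sph n, ((2 * n / (1 - herm z u.1) ^ (n + 1) : ℂ) • (u.1 - z)
      - (2 * n : ℂ) • u.1 - z) ∂(sigma n) := by
  haveI := isProb (n := n) (Nat.pos_of_ne_zero (NeZero.ne n))
  have hz1 : ‖z‖ < 1 := by simpa using hz
  have hw : ∀ u : Sph n, ‖herm z u.1‖ < 1 := fun u => lt_of_le_of_lt (norm_herm_le z u) hz1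
  have hn0 : (n : ℂ) ≠ 0 := by exact_mod_cast NeZero.ne n
  -- the series
  set F : ℕ → Sph n → Cn n := fun k u => (((k + n).choose n : ℂ) * herm z u.1 ^ k) • (u.1 - z)
    with hF
  have hFc : ∀ k, Continuous (F k) := fun k =>
    (continuous_const.mul ((herm_cont z).pow k)).smul (continuous_subtype_val.sub continuous_const)
  have hFi : ∀ k, Integrable (F k) (sigma n) := fun k => integrable_of_cont (hFc k) _
  have hFb : ∀ k u, ‖F k u‖ ≤ ‖((k + n).choose n : ℝ) * ‖z‖ ^ k‖ * 2 := by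
    intro k u
    rw [hF]
    simp only
    rw [norm_smul, norm_mul, norm_pow]
    have h1 : ‖u.1 - z‖ ≤ 2 := by
      refine (norm_sub_le _ _).trans ?_
      have h2 : ‖u.1‖ = 1 := by simp
      linarith
    have h3 : ‖(((k + n).choose n : ℕ) : ℂ)‖ = ((k + n).choose n : ℝ) := by
      rw [Complex.norm_natCast]
    rw [h3, Real.norm_eq_abs, abs_of_nonneg (by positivity)]
    refine mul_le_mul ?_ h1 (norm_nonneg _) (by positivity)
    exact mul_le_mul_of_nonneg_left (pow_le_pow_left₀ (norm_nonneg _) (norm_herm_le z u) _)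
      (by positivity)
  have hsum1 : Summable fun k : ℕ => ‖((k + n).choose n : ℝ) * ‖z‖ ^ k‖ * 2 := by
    refine Summable.mul_right _ ?_
    exact (summable_choose_mul_geometric_of_norm_lt_one (R := ℝ) n (by simpa using hz1)).norm
  have hsum : Summable fun k => ∫ u, ‖F k u‖ ∂(sigma n) := by
    refine Summable.of_nonneg_of_le (fun k => integral_nonneg fun u => norm_nonneg _)
      (fun k => ?_) hsum1
    have h1 : ∫ u, ‖F k u‖ ∂(sigma n) ≤ ∫ _u : Sph n, ‖((k + n).choose n : ℝ) * ‖z‖ ^ k‖ * 2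
        ∂(sigma n) := integral_mono (hFi k).norm (integrable_const _) fun u => hFb k u
    simpa using h1
  have hHS := hasSum_integral_of_summable_integral_norm hFi hsum
  have htsum : ∀ u : Sph n, ∑' k, F k u = (1 / (1 - herm z u.1) ^ (n + 1)) • (u.1 - z) := by
    intro u
    exact ((hasSum_choose_mul_geometric_of_norm_lt_one n (hw u)).smul_const (u.1 - z)).tsum_eq
  rw [integral_congr_ae (Filter.Eventually.of_forall htsum)] at hHS
  -- the integrals of the terms
  have hterm : ∀ k, ∫ u, F k u ∂(sigma n)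
      = ((k + n).choose n : ℂ) • ((∫ u : Sph n, herm z u.1 ^ k • u.1 ∂(sigma n))
        - (∫ u : Sph n, herm z u.1 ^ k ∂(sigma n)) • z) := by
    intro k
    have hi1 : Integrable (fun u : Sph n => herm z u.1 ^ k • u.1) (sigma n) :=
      integrable_of_cont (((herm_cont z).pow k).smul continuous_subtype_val) _
    have hi2 : Integrable (fun u : Sph n => herm z u.1 ^ k • z) (sigma n) :=
      integrable_of_cont (((herm_cont z).pow k).smul continuous_const) _
    rw [← integral_smul_const, ← integral_sub hi1 hi2, ← integral_smul]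
    refine integral_congr_ae (Filter.Eventually.of_forall fun u => ?_)
    simp only [hF]
    rw [mul_smul, smul_sub (herm z u.1 ^ k)]
  have hval : HasSum (fun k => ∫ u, F k u ∂(sigma n)) ((n : ℂ)⁻¹ • z) := by
    have h1 : ∀ k ∉ Finset.range 2, ∫ u, F k u ∂(sigma n) = 0 := by
      intro k hk
      rw [Finset.mem_range, not_lt] at hk
      rw [hterm, moment_vec z k (by omega), moment_zero z k (by omega), zero_smul, sub_zero,
        smul_zero]
    have h2 : HasSum (fun k => ∫ u, F k u ∂(sigma n))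
        (∑ k ∈ Finset.range 2, ∫ u, F k u ∂(sigma n)) := hasSum_sum_of_ne_finset_zero h1
    have h3 : ∑ k ∈ Finset.range 2, ∫ u, F k u ∂(sigma n) = (n : ℂ)⁻¹ • z := by
      rw [Finset.sum_range_succ, Finset.sum_range_one, hterm, hterm, moment_vec z 0 (by norm_num),
        moment_one z, moment_zero z 1 one_ne_zero]
      have h4 : ∫ u : Sph n, herm z u.1 ^ 0 ∂(sigma n) = 1 := by simp
      rw [h4]
      have h5 : ((0 + n).choose n : ℂ) = 1 := by simp
      have h6 : ((1 + n).choose n : ℂ) = n + 1 := by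
        rw [add_comm 1 n, Nat.choose_succ_self_right]
        push_cast
        ring
      rw [h5, h6, one_smul, one_smul, zero_sub, zero_smul, sub_zero, add_smul, one_smul, smul_smul,
        mul_inv_cancel₀ hn0, one_smul]
      abel
    rwa [h3] at h2
  have hA : ∫ u : Sph n, (1 / (1 - herm z u.1) ^ (n + 1)) • (u.1 - z) ∂(sigma n)
      = (n : ℂ)⁻¹ • z := hHS.unique hval
  have hne : ∀ u : Sph n, 1 - herm z u.1 ≠ 0 := by
    intro u h
    have h1 : herm z u.1 = 1 := (sub_eq_zero.1 h).symm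
    have h2 := hw u
    rw [h1, norm_one] at h2
    exact lt_irrefl _ h2
  have hc1 : Continuous fun u : Sph n => (1 / (1 - herm z u.1) ^ (n + 1)) • (u.1 - z) := by
    have hcc : Continuous fun u : Sph n => 1 / (1 - herm z u.1) ^ (n + 1) :=
      continuous_const.div ((continuous_const.sub (herm_cont z)).pow _)
        fun u => pow_ne_zero _ (hne u)
    exact hcc.smul (continuous_subtype_val.sub continuous_const)
  have hc2 : Continuous fun u : Sph n =>
      (2 * n : ℂ) • ((1 / (1 - herm z u.1) ^ (n + 1)) • (u.1 - z)) := hc1.const_smul (2 * n : ℂ)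
  have hc3 : Continuous fun u : Sph n => (2 * n : ℂ) • u.1 :=
    continuous_subtype_val.const_smul (2 * n : ℂ)
  have hB : ∫ u : Sph n, u.1 ∂(sigma n) = 0 := by
    have := moment_vec z 0 (by norm_num)
    simpa using this
  have e1 : ∀ u : Sph n, (2 * n / (1 - herm z u.1) ^ (n + 1) : ℂ) • (u.1 - z)
      - (2 * n : ℂ) • u.1 - z
      = (2 * n : ℂ) • ((1 / (1 - herm z u.1) ^ (n + 1)) • (u.1 - z)) - (2 * n : ℂ) • u.1 - z := by
    intro u
    rw [smul_smul, mul_one_div]
  rw [integral_congr_ae (Filter.Eventually.of_forall e1), integral_sub, integral_sub,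
    integral_smul, integral_smul, hA, hB]
  · simp only [smul_zero, sub_zero, integral_const, probReal_univ, one_smul]
    rw [smul_smul, mul_assoc, mul_inv_cancel₀ hn0, mul_one, two_smul]
    abel
  · exact integrable_of_cont hc2 _
  · exact integrable_of_cont hc3 _
  · exact (integrable_of_cont hc2 _).sub (integrable_of_cont hc3 _)
  · exact integrable_const _

theorem sigma_isPH (hn : 0 < n) : IsPH n (sigma n) := by
  haveI : NeZero n := ⟨by omega⟩
  exact ⟨sigma_isPE hn, fun z => z, id_isM, fun z hz => sigma_formula z hz⟩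

end Q71.HZ
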