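import Pool.Agent.Q71.HZ.Defs
import Pool.Agent.Helper28.SphereCalc

/-!
# The normalized surface measure: invariance and moments
-/

namespace Q71.HZ

open MeasureTheory Set Metric
open scoped ComplexConjugate Pointwise

variable {n : ℕ}

/-- A complex isometry as a real isometry. -/
noncomputable def toR (L : Cn n ≃ₗᵢ[ℂ] Cn n) : Cn n ≃ₗᵢ[ℝ] Cn n :=
  { toLinearEquiv := L.toLinearEquiv.restrictScalars ℝ, norm_map' := L.norm_map }

theorem toR_apply (L : Cn n ≃ₗᵢ[ℂ] Cn n) (x : Cn n) : toR L x = L x := rfl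

theorem toSphere_univ_ne (hn : 0 < n) : (volume : Measure (Cn n)).toSphere univ ≠ 0 := by
  haveI : Nonempty (Fin n) := ⟨⟨0, hn⟩⟩
  haveI : Nontrivial (Cn n) := inferInstance
  intro h
  have := Measure.toSphere_ne_zero (volume : Measure (Cn n))
  exact this (Measure.measure_univ_eq_zero.1 h)

theorem toSphere_univ_ne_top : (volume : Measure (Cn n)).toSphere univ ≠ ⊤ := measure_ne_top _ _

theorem isProb (hn : 0 < n) : IsProbabilityMeasure (sigma n) := by
  refine ⟨?_⟩
  rw [sigma, Measure.smul_apply, smul_eq_mul,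
    ENNReal.inv_mul_cancel (toSphere_univ_ne hn) toSphere_univ_ne_top]

theorem integral_comp (L : Cn n ≃ₗᵢ[ℂ] Cn n) {F : Type*} [NormedAddCommGroup F]
    [NormedSpace ℝ F] (h : Cn n → F) :
    ∫ u : Sph n, h (L u) ∂(sigma n) = ∫ u : Sph n, h u ∂(sigma n) := by
  rw [sigma, integral_smul_measure, integral_smul_measure]
  congr 1
  exact Pool.Agent.Helper28.integral_sphMap (toR L) h

theorem isOpenPos : (sigma n).IsOpenPosMeasure := by
  have h1 : ((volume : Measure (Cn n)).toSphere).IsOpenPosMeasure := inferInstance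
  refine ⟨fun U hU hUn h => ?_⟩
  rw [sigma, Measure.smul_apply, smul_eq_mul, mul_eq_zero] at h
  rcases h with h | h
  · exact toSphere_univ_ne_top (ENNReal.inv_eq_zero.1 h)
  · exact h1.open_pos U hU hUn h

/-- The diagonal unitary maps. -/
noncomputable def diagL (c : Fin n → ℂ) (hc : ∀ i, ‖c i‖ = 1) : Cn n ≃ₗᵢ[ℂ] Cn n where
  toFun x := WithLp.toLp 2 fun i => c i * x i
  invFun x := WithLp.toLp 2 fun i => (c i)⁻¹ * x i
  map_add' x y := by
    ext i
    simp [mul_add]
  map_smul' a x := by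
    ext i
    simp
    ring
  left_inv x := by
    ext i
    have h0 : c i ≠ 0 := norm_ne_zero_iff.1 (by rw [hc i]; exact one_ne_zero)
    simp [h0]
  right_inv x := by
    ext i
    have h0 : c i ≠ 0 := norm_ne_zero_iff.1 (by rw [hc i]; exact one_ne_zero)
    simp [h0]
  norm_map' x := by
    change ‖WithLp.toLp 2 fun i => c i * x i‖ = ‖x‖
    rw [EuclideanSpace.norm_eq, EuclideanSpace.norm_eq]
    congr 1
    refine Finset.sum_congr rfl fun i _ => ?_
    simp [hc i]

theorem diagL_apply (c : Fin n → ℂ) (hc : ∀ i, ‖c i‖ = 1) (x : Cn n) (i : Fin n) :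
    diagL c hc x i = c i * x i := rfl

/-- Permutations of the coordinates. -/
noncomputable def permL (e : Equiv.Perm (Fin n)) : Cn n ≃ₗᵢ[ℂ] Cn n :=
  LinearIsometryEquiv.piLpCongrLeft 2 ℂ ℂ e

theorem permL_apply (e : Equiv.Perm (Fin n)) (x : Cn n) (i : Fin n) :
    permL e x i = x (e.symm i) := by
  simp [permL, LinearIsometryEquiv.piLpCongrLeft_apply, Equiv.piCongrLeft']

/-- If a rotation multiplies `h` by a constant different from one, its integral vanishes. -/
theorem integral_eq_zero_of_rot (L : Cn n ≃ₗᵢ[ℂ] Cn n) {F : Type*} [NormedAddCommGroup F]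
    [NormedSpace ℂ F] (h : Cn n → F) (c : ℂ) (hc : c ≠ 1)
    (hL : ∀ u, h (L u) = c • h u) : ∫ u : Sph n, h u ∂(sigma n) = 0 := by
  have h1 := integral_comp L h
  simp_rw [hL] at h1
  rw [integral_smul] at h1
  have h2 : (c - 1) • ∫ u : Sph n, h u ∂(sigma n) = 0 := by
    rw [sub_smul, one_smul, h1, sub_self]
  rcases smul_eq_zero.1 h2 with h3 | h3
  · exact absurd (sub_eq_zero.1 h3) hc
  · exact h3

theorem sum_norm_sq (u : Sph n) : ∑ j, ‖u.1 j‖ ^ 2 = 1 := by
  have h1 : ‖u.1‖ = 1 := by simpa using u.2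
  rw [EuclideanSpace.norm_eq] at h1
  have h2 := congrArg (· ^ 2) h1
  simp only [one_pow] at h2
  rwa [Real.sq_sqrt (by positivity)] at h2

theorem norm_coord_le (u : Sph n) (j : Fin n) : ‖u.1 j‖ ≤ 1 := by
  have h1 := sum_norm_sq u
  have h2 : ‖u.1 j‖ ^ 2 ≤ ∑ j, ‖u.1 j‖ ^ 2 :=
    Finset.single_le_sum (f := fun j => ‖u.1 j‖ ^ 2) (fun i _ => by positivity) (Finset.mem_univ j)
  rw [h1] at h2
  exact (sq_le_one_iff₀ (norm_nonneg _)).1 h2

/-- The coordinate hyperplanes are null sets. -/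
theorem coord_null (j : Fin n) : sigma n {u | u.1 j = 0} = 0 := by
  have hcont : Continuous fun u : Sph n => u.1 j := by fun_prop
  have hm : MeasurableSet {u : Sph n | u.1 j = 0} :=
    (isClosed_eq hcont continuous_const).measurableSet
  rw [sigma, Measure.smul_apply, Measure.toSphere_apply' _ hm]
  have h1 : (volume : Measure (Cn n)) (Ioo (0 : ℝ) 1 • (Subtype.val '' {u : Sph n | u.1 j = 0})) = 0 := by
    let V : Submodule ℝ (Cn n) := (LinearMap.ker (LinearMap.proj (R := ℂ) (φ := fun _ : Fin n => ℂ) j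
      ∘ₗ (WithLp.linearEquiv 2 ℂ (Fin n → ℂ)).toLinearMap)).restrictScalars ℝ
    have hV : ∀ x : Cn n, x ∈ V ↔ x j = 0 := fun x => by
      simp [V]
    have hVt : V ≠ ⊤ := by
      intro h
      have h2 : EuclideanSpace.single j (1 : ℂ) ∈ V := by rw [h]; trivial
      rw [hV] at h2
      simp at h2
    refine measure_mono_null ?_ (Measure.addHaar_submodule volume V hVt)
    rintro _ ⟨t, ht, _, ⟨u, hu, rfl⟩, rfl⟩
    have hu' : u.1 j = 0 := hu
    have h3 : (t • u.1) j = 0 := by
      rw [PiLp.smul_apply, hu', smul_zero]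
    exact (hV _).2 h3
  rw [h1]
  simp

end Q71.HZ
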